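import Pool.Agent.P8H64.ZO.Stm

/-!
# Project ZO, package PTS: the number of fixed points of a product
-/

set_option autoImplicit false

open CategoryTheory AlgebraicGeometry

universe u v w

namespace Pool.Agent.P8H64.ZO

open Pool.Agent.H914 Pool.Agent.H914.VarClass Pool.Agent.H914.VarClass.Obj Pool.Agent.W492.BB
  Pool.Agent.W550.Corr Pool.Agent.TH133 Pool.Agent.TH829.Prime Pool.Agent.TH829.Kim

section pf

variable {k : Type u} [Field k] {𝒱 : VarClass k} {C : TheoryData.{u, v, 0} 𝒱 ℚ}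
  [hC : IsChowProj C] {X Y : 𝒱.Obj}

/-- `(X × Y) × (X × Y) ⟶ (X × X) × (Y × Y)`. -/
noncomputable def exI (X Y : 𝒱.Obj) :
    (X.prod Y).prod (X.prod Y) ⟶ (X.prod X).prod (Y.prod Y) :=
  Obj.lift (prodMap (fst X Y) (fst X Y)) (prodMap (snd X Y) (snd X Y))

/-- `(X × X) × (Y × Y) ⟶ (X × Y) × (X × Y)`. -/
noncomputable def exJ (X Y : 𝒱.Obj) :
    (X.prod X).prod (Y.prod Y) ⟶ (X.prod Y).prod (X.prod Y) :=
  Obj.lift (prodMap (fst X X) (fst Y Y)) (prodMap (snd X X) (snd Y Y))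

lemma exI_exJ (X Y : 𝒱.Obj) : exI X Y ≫ exJ X Y = 𝟙 _ := by
  apply prod_ext
  · apply prod_ext <;> simp [exI, exJ]
  · apply prod_ext <;> simp [exI, exJ]

lemma exJ_exI (X Y : 𝒱.Obj) : exJ X Y ≫ exI X Y = 𝟙 _ := by
  apply prod_ext
  · apply prod_ext <;> simp [exI, exJ]
  · apply prod_ext <;> simp [exI, exJ]

include hC

lemma graph_mem (f : X ⟶ X) : C.graph f ∈ C.gr (X.prod X) X.dim := by
  have h := C.push_mem (Obj.lift (𝟙 X) f) (C.one_mem X)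
  have e1 : (0 : ℤ) + 1 * (((X.prod X).dim : ℤ) - (X.dim : ℤ)) = X.dim := by
    rw [dim_prod]; push_cast; ring
  rwa [e1] at h

/-- The number of fixed points exists. -/
lemma pts_spec (f : X ⟶ X) :
    HasDegree C (C.up (Obj.lift (𝟙 X) (𝟙 X)) (C.graph f)) (pts C f) := by
  obtain ⟨q, hq⟩ := exists_hasDegree (C := C) (X := X)
    (x := C.up (Obj.lift (𝟙 X) (𝟙 X)) (C.graph f)) (C.pull_mem _ (graph_mem f))
  exact Classical.epsilon_spec (p := fun a =>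
    HasDegree C (C.up (Obj.lift (𝟙 X) (𝟙 X)) (C.graph f)) a) ⟨q, hq⟩

/-- The external product of two graphs. -/
lemma ext_graph (f : X ⟶ X) (g : Y ⟶ Y) : C.ext (C.graph f) (C.graph g) =
    C.push (prodMap (Obj.lift (𝟙 X) f) (Obj.lift (𝟙 Y) g)) 1 := by
  have e1 : prodMap (Obj.lift (𝟙 X) f) (𝟙 (Y.prod Y)) ≫ snd (X.prod X) (Y.prod Y) =
      snd X (Y.prod Y) := by simp
  have e2 : prodMap (𝟙 X) (Obj.lift (𝟙 Y) g) ≫ prodMap (Obj.lift (𝟙 X) f) (𝟙 (Y.prod Y)) =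
      prodMap (Obj.lift (𝟙 X) f) (Obj.lift (𝟙 Y) g) := by
    apply prod_ext
    · simp
    · simp
  rw [TheoryData.ext, TheoryData.graph, TheoryData.graph, C.base_fst, map_one, ← C.proj_right,
    one_mul, ← C.pull_comp, e1, C.base_snd, map_one, ← C.push_comp, e2]

/-- The graph of a product. -/
lemma graph_prod (f : X ⟶ X) (g : Y ⟶ Y) :
    C.graph (prodMap f g) = C.pull (exI X Y) (C.ext (C.graph f) (C.graph g)) := by
  have e1 : prodMap (Obj.lift (𝟙 X) f) (Obj.lift (𝟙 Y) g) ≫ exJ X Y =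
      Obj.lift (𝟙 (X.prod Y)) (prodMap f g) := by
    apply prod_ext
    · apply prod_ext <;> simp [exJ]
    · apply prod_ext <;> simp [exJ]
  rw [ext_graph, pull_iso C (exI X Y) (exJ X Y) (exI_exJ X Y) (exJ_exI X Y), ← C.push_comp, e1]
  rfl

lemma diag_prod (f : X ⟶ X) (g : Y ⟶ Y) :
    C.up (Obj.lift (𝟙 (X.prod Y)) (𝟙 (X.prod Y))) (C.graph (prodMap f g)) =
      C.ext (C.up (Obj.lift (𝟙 X) (𝟙 X)) (C.graph f))
        (C.up (Obj.lift (𝟙 Y) (𝟙 Y)) (C.graph g)) := by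
  have e1 : Obj.lift (𝟙 (X.prod Y)) (𝟙 (X.prod Y)) ≫ exI X Y ≫ fst (X.prod X) (Y.prod Y) =
      fst X Y ≫ Obj.lift (𝟙 X) (𝟙 X) := by
    apply prod_ext <;> simp [exI]
  have e2 : Obj.lift (𝟙 (X.prod Y)) (𝟙 (X.prod Y)) ≫ exI X Y ≫ snd (X.prod X) (Y.prod Y) =
      snd X Y ≫ Obj.lift (𝟙 Y) (𝟙 Y) := by
    apply prod_ext <;> simp [exI]
  rw [graph_prod, TheoryData.ext, TheoryData.ext, TheoryData.up, TheoryData.up, TheoryData.up,
    map_mul, map_mul, ← C.pull_comp, ← C.pull_comp, ← C.pull_comp, ← C.pull_comp, ← C.pull_comp,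
    ← C.pull_comp, Category.assoc, Category.assoc, e1, e2]

end pf

theorem pts_ : S_PTS.{u, v} := by
  intro k _ 𝒱 C hC hne
  refine ⟨fun X f => pts_spec f, fun X Y f g => ?_⟩
  have h1 := pts_spec (C := C) (prodMap f g)
  rw [diag_prod] at h1
  exact hasDegree_uniq (hne X) h1 (hasDegree_ext (pts_spec f) (pts_spec g))

end Pool.Agent.P8H64.ZO
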