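import Pool.Agent.P8H64.OO.Pub

/-!
# Zeta functions of varieties with Frobenius endomorphisms: definitions
-/

set_option autoImplicit false

open CategoryTheory AlgebraicGeometry

universe u v w

namespace Pool.Agent.P8H64.ZO

open Pool.Agent.H914 Pool.Agent.H914.VarClass Pool.Agent.H914.VarClass.Obj Pool.Agent.W492.BB
  Pool.Agent.TH133

variable {k : Type u} [Field k] {𝒱 : VarClass k}

/-- The endomorphisms `F X` of the varieties in the class have the properties of the Frobenius
endomorphisms relative to the field with `q` elements which are used: the Frobenius endomorphism of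
`X × Y` is the product of those of `X` and `Y`, and the push-forward under the one of `X` is
multiplication by `q ^ j` on the cycles of dimension `j`; in particular, its degree is
`q ^ dim X`. -/
structure IsFrobenius (C : TheoryData.{u, v, 0} 𝒱 ℚ) (q : ℕ) (F : ∀ X : 𝒱.Obj, X ⟶ X) :
    Prop where
  prod : ∀ X Y : 𝒱.Obj, F (X.prod Y) = prodMap (F X) (F Y)
  down : ∀ (X : 𝒱.Obj) (i j : ℕ), i + j = X.dim → ∀ z : C.A X, C.Deg i z →
    C.down (F X) z = (q : ℚ) ^ j • z

/-- The iterates of an endomorphism. -/
def iter {X : 𝒱.Obj} (f : X ⟶ X) : ℕ → (X ⟶ X)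
  | 0 => 𝟙 X
  | n + 1 => iter f n ≫ f

/-- The number of fixed points of the endomorphism `f` of `X`: the intersection number of its graph
with the diagonal. For the `n`-th iterate of the Frobenius endomorphism relative to the field with
`q` elements it is the number of the points of `X` over the field with `q ^ n` elements. -/
noncomputable def pts (C : TheoryData.{u, v, 0} 𝒱 ℚ) {X : 𝒱.Obj} (f : X ⟶ X) : ℚ :=
  Classical.epsilon fun a => HasDegree C (C.up (Obj.lift (𝟙 X) (𝟙 X)) (C.graph f)) a

/-- `m` is the multiplicity function of the zeta function of `X`: for all `n ≥ 1` the number of the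
points of `X` over the field with `q ^ n` elements is `∑ m(α) α ^ n`, the sum over the `α ≠ 0` in
`K`. In other words the zeta function of `X` is the product of the factors
`(1 - α q ^ (-s)) ^ (- m(α))`; in particular, `m(q ^ i)` is the order of its pole at `s = i`. -/
def IsZeta (C : TheoryData.{u, v, 0} 𝒱 ℚ) {K : Type w} [Field K] (F : ∀ X : 𝒱.Obj, X ⟶ X)
    (X : 𝒱.Obj) (m : K →₀ ℤ) : Prop :=
  m 0 = 0 ∧ ∀ n : ℕ, 1 ≤ n → (pts C (iter (F X) n) : K) = m.sum fun α c => (c : K) * α ^ n

/-- The order of the pole of the zeta function of `X` at `s = i`. -/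
noncomputable def poleOrder (C : TheoryData.{u, v, 0} 𝒱 ℚ) (K : Type w) [Field K] (q : ℕ)
    (F : ∀ X : 𝒱.Obj, X ⟶ X) (X : 𝒱.Obj) (i : ℕ) : ℤ :=
  (Classical.epsilon fun m : K →₀ ℤ => IsZeta C F X m) ((q : K) ^ i)

/-- `X` and `Y` have the same zeta function: the same numbers of points over the fields with `q ^ n`
elements, for all `n ≥ 1`. -/
def SameZeta (C : TheoryData.{u, v, 0} 𝒱 ℚ) (F : ∀ X : 𝒱.Obj, X ⟶ X) (X Y : 𝒱.Obj) : Prop :=
  ∀ n : ℕ, 1 ≤ n → pts C (iter (F X) n) = pts C (iter (F Y) n)

end Pool.Agent.P8H64.ZO
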