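import Pool.Agent.P8H64.ZO.Main
import Pool.Agent.P8H64.AC.Comb
import Pool.Agent.P8H64.AC.Stm
import Pool.Agent.P8H64.AC.Every

/-!
# Every single pole decides
-/

set_option autoImplicit false

open CategoryTheory AlgebraicGeometry

universe u v w

namespace Pool.Agent.P8H64.ZO

open Pool.Agent.H914 Pool.Agent.H914.VarClass Pool.Agent.H914.VarClass.Obj Pool.Agent.W492.BB
  Pool.Agent.TH133 Pool.Agent.P8H64.OO Pool.Agent.W550.Corr Pool.Agent.P8H64.AC

section form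

variable {K : Type w} [Field K]

/-- The translate. -/
noncomputable def tr (c : K) (hc : c ≠ 0) (m : K →₀ ℤ) : K →₀ ℤ :=
  m.equivMapDomain (Equiv.mulLeft₀ c hc).symm

lemma tr_apply (c : K) (hc : c ≠ 0) (m : K →₀ ℤ) (α : K) : tr c hc m α = m (c * α) := rfl

lemma dot_tr (c : K) (hc : c ≠ 0) (m : K →₀ ℤ) : dot (tr c hc m) (tr c hc m) = dot m m := by
  unfold dot tr
  rw [Finsupp.sum_equivMapDomain]
  refine Finsupp.sum_congr fun α _ => ?_
  rw [Finsupp.equivMapDomain_apply]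
  simp only [Equiv.symm_symm, Equiv.apply_symm_apply]

lemma dot_sub_left (m m' x : K →₀ ℤ) : dot (m - m') x = dot m x - dot m' x := by
  unfold dot
  rw [Finsupp.sum_sub_index]
  intro a b b'
  ring

lemma dot_sub_right (m x x' : K →₀ ℤ) : dot m (x - x') = dot m x - dot m x' := by
  rw [dot_comm, dot_sub_left, dot_comm, dot_comm x']

/-- If `x + T x` is isotropic, where `T` is the translation by an element of infinite order (or
one), then `x = 0`. -/
lemma eq_zero_of_tr [CharZero K] (c : K) (hc : c ≠ 0) (hinf : c = 1 ∨ ∀ n : ℕ, 0 < n → c ^ n ≠ 1)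
    (x : K →₀ ℤ) (h0 : x 0 = 0) (h : dot x x + dot x (tr c hc x) = 0) : x = 0 := by
  have h1 : dot x (0 - tr c hc x) = dot x x := by
    rw [dot_sub_right]
    have : dot x 0 = 0 := by
      unfold dot
      simp
    rw [this]
    linarith
  have h2 : dot (0 - tr c hc x) (0 - tr c hc x) = dot x x := by
    rw [dot_sub_left, dot_sub_right, dot_sub_right, dot_tr]
    have e1 : ∀ y : K →₀ ℤ, dot 0 y = 0 := fun y => by simp [dot]
    have e2 : ∀ y : K →₀ ℤ, dot y 0 = 0 := fun y => by simp [dot]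
    rw [e1, e1, e2]
    ring
  have h3 : x = 0 - tr c hc x := (dot_le x (0 - tr c hc x)).2.1 (by rw [h1, h2]; ring)
  have h4 : ∀ α, x (c * α) = - x α := fun α => by
    have := DFunLike.congr_fun h3 α
    simp only [Finsupp.coe_sub, Finsupp.coe_zero, Pi.sub_apply, Pi.zero_apply, tr_apply] at this
    linarith
  ext α
  by_contra hα
  simp only [Finsupp.coe_zero, Pi.zero_apply] at hα
  have hα0 : α ≠ 0 := fun h => hα (by rw [h, h0])
  rcases hinf with rfl | hinf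
  · have := h4 α
    rw [one_mul] at this
    omega
  · have h5 : ∀ n : ℕ, x (c ^ n * α) ≠ 0 := by
      intro n
      induction n with
      | zero => simpa using hα
      | succ n ih =>
        rw [pow_succ', mul_assoc, h4]
        simpa using ih
    have h6 : Function.Injective fun n : ℕ => c ^ n * α := by
      intro a b hab
      have hab' : c ^ a = c ^ b := mul_right_cancel₀ hα0 hab
      by_contra hne
      rcases Nat.lt_or_gt_of_ne hne with hlt | hlt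
      · obtain ⟨n, rfl⟩ := Nat.exists_eq_add_of_lt hlt
        rw [add_assoc, pow_add] at hab'
        exact hinf (n + 1) (by omega) (mul_left_cancel₀ (pow_ne_zero a hc)
          (by rw [mul_one]; exact hab'.symm))
      · obtain ⟨n, rfl⟩ := Nat.exists_eq_add_of_lt hlt
        rw [add_assoc, pow_add] at hab'
        exact hinf (n + 1) (by omega) (mul_left_cancel₀ (pow_ne_zero b hc)
          (by rw [mul_one]; exact hab'))
    have h7 : (Set.range fun n : ℕ => c ^ n * α).Infinite := Set.infinite_range_of_injective h6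
    refine h7 ((Finset.finite_toSet x.support).subset ?_)
    rintro _ ⟨n, rfl⟩
    exact Finsupp.mem_support_iff.2 (h5 n)

end form

variable {k : Type u} [Field k] {𝒱 : VarClass k} {C : TheoryData.{u, v, 0} 𝒱 ℚ}
  [hC : IsChowProj C] {K : Type w} [Field K] [CharZero K] {q : ℕ} {F : ∀ X : 𝒱.Obj, X ⟶ X}

/-- The orders of the poles at all integers. -/
noncomputable def ph (q : ℕ) (m : K →₀ ℤ) (j : ℤ) : ℤ := m ((q : K) ^ j)

/-- The multiplicity function of a cellular variety. -/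
noncomputable def cellm (K : Type w) [Field K] (q : ℕ) (n : ℕ) (e : Fin n → ℕ) : K →₀ ℤ :=
  ∑ s, Finsupp.single ((q : K) ^ e s) 1

omit [CharZero K] in
lemma cellm_sum {M : Type*} [AddCommGroup M] (n : ℕ) (e : Fin n → ℕ) (g : K → ℤ → M)
    (h0 : ∀ α, g α 0 = 0) (hadd : ∀ α a b, g α (a + b) = g α a + g α b) :
    (cellm K q n e).sum g = ∑ s, g ((q : K) ^ e s) 1 := by
  unfold cellm
  rw [← Finsupp.sum_finsetSum_index h0 hadd]
  exact Finset.sum_congr rfl fun s _ => Finsupp.sum_single_index (h0 _)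

omit [CharZero K] in
lemma cellm_zero (hq : (q : K) ≠ 0) (n : ℕ) (e : Fin n → ℕ) : cellm K q n e 0 = 0 := by
  unfold cellm
  rw [Finsupp.finsetSum_apply]
  exact Finset.sum_eq_zero fun s _ => Finsupp.single_eq_of_ne (pow_ne_zero _ hq).symm

/-- The zeta function of a cellular variety. -/
lemma zeta_cell (hC' : S_PTC.{u, v}) (hne : ∀ X : 𝒱.Obj, (1 : C.A X) ≠ 0) (hq : q ≠ 0)
    (hF : IsFrobenius C q F) (S : 𝒱.Obj) (n : ℕ) (c : Fin n → ℕ) (hS : IsCellular C S c) :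
    IsZeta C F S (cellm K q n fun s => S.dim - c s) := by
  have hqK : (q : K) ≠ 0 := Nat.cast_ne_zero.2 hq
  refine ⟨cellm_zero hqK _ _, fun r _ => ?_⟩
  rw [(hC' k 𝒱 C hne S n c hS q (F S) (hF.down S)).2 r,
    cellm_sum n _ (fun α a => (a : K) * α ^ r) (fun α => by simp) (fun α a b => by push_cast; ring)]
  push_cast
  refine Finset.sum_congr rfl fun s _ => ?_
  rw [← pow_mul, mul_comm (S.dim - c s) r]
  ring

/-- The multiplicity function of the product with a cellular variety. -/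
lemma zeta_prod_cell (hP : S_PTS.{u, v}) (hC' : S_PTC.{u, v}) (hV : S_CONV.{w})
    (hne : ∀ X : 𝒱.Obj, (1 : C.A X) ≠ 0) (hq : q ≠ 0)
    (hF : IsFrobenius C q F) (Z S : 𝒱.Obj) (n : ℕ) (c : Fin n → ℕ) (hS : IsCellular C S c)
    {m : K →₀ ℤ} (hm : IsZeta C F Z m) :
    ∃ m' : K →₀ ℤ, IsZeta C F (Z.prod S) m' ∧
      ∀ j : ℤ, ph q m' j = ∑ s, ph q m (j - (S.dim - c s : ℕ)) := by
  have hqK : (q : K) ≠ 0 := Nat.cast_ne_zero.2 hq
  have hz := zeta_cell (K := K) hC' hne hq hF S n c hS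
  obtain ⟨m', h0, h1, h2⟩ := hV K _ m hz.1 hm.1
  refine ⟨m', ⟨h0, fun r hr => ?_⟩, fun j => ?_⟩
  · rw [pts_prod hP hne hF, h1, ← hz.2 r hr, ← hm.2 r hr]
    push_cast
    ring
  · rw [ph, h2 _ (zpow_ne_zero _ hqK), cellm_sum n _ (fun α a => a * m ((q : K) ^ j / α))
      (fun α => by simp) (fun α a b => by ring)]
    refine Finset.sum_congr rfl fun s _ => ?_
    rw [one_mul, ph, zpow_sub₀ hqK, zpow_natCast]

lemma zeta_proj (hP : S_PTS.{u, v}) (hC' : S_PTC.{u, v}) (hV : S_CONV.{w})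
    (hne : ∀ X : 𝒱.Obj, (1 : C.A X) ≠ 0) (hq : q ≠ 0)
    (hF : IsFrobenius C q F) (Z S : 𝒱.Obj) (N : ℕ) (hS : IsProjectiveSpace C S N)
    {m : K →₀ ℤ} (hm : IsZeta C F Z m) :
    ∃ m' : K →₀ ℤ, IsZeta C F (Z.prod S) m' ∧ ph q m' = sop N (ph q m) := by
  obtain ⟨m', h1, h2⟩ := zeta_prod_cell hP hC' hV hne hq hF Z S (N + 1) _ hS.2 hm
  refine ⟨m', h1, funext fun j => ?_⟩
  rw [h2 j, hS.1, sop, ← Finset.sum_range_reflect,
    ← Fin.sum_univ_eq_sum_range (fun s : ℕ => ph q m (j - ((N + 1 - 1 - s : ℕ) : ℤ))) (N + 1)]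
  rfl

lemma zeta_two (hP : S_PTS.{u, v}) (hC' : S_PTC.{u, v}) (hV : S_CONV.{w})
    (hne : ∀ X : 𝒱.Obj, (1 : C.A X) ≠ 0) (hq : q ≠ 0)
    (hF : IsFrobenius C q F) (Z S T : 𝒱.Obj) (a b : ℕ) (hS : IsProjectiveSpace C S a)
    (hT : IsProjectiveSpace C T b) {m : K →₀ ℤ} (hm : IsZeta C F Z m) :
    ∃ m' : K →₀ ℤ, IsZeta C F ((Z.prod S).prod T) m' ∧ ph q m' = sop b (sop a (ph q m)) := by
  obtain ⟨m', h1, h2⟩ := zeta_proj hP hC' hV hne hq hF Z S a hS hm
  obtain ⟨m'', h3, h4⟩ := zeta_proj hP hC' hV hne hq hF (Z.prod S) T b hT h1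
  exact ⟨m'', h3, by rw [h4, h2]⟩

lemma poleOrder_ph (hU : S_UNIQ.{w}) {X : 𝒱.Obj} {m : K →₀ ℤ} (h : IsZeta C F X m) (i : ℕ) :
    poleOrder C K q F X i = ph q m i := by
  rw [poleOrder_eq hU h, ph, zpow_natCast]

variable {hd : 𝒱.Obj → (K →₀ ℤ)}

/-- The orders of the poles of a product. -/
lemma zeta_XY (hP : S_PTS.{u, v}) (hV : S_CONV.{w})
    (hne : ∀ X : 𝒱.Obj, (1 : C.A X) ≠ 0) (hq : q ≠ 0)
    (hF : IsFrobenius C q F) (hf : Facts K hd C q F) (X : 𝒱.Obj) {Y : 𝒱.Obj} {d : ℕ}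
    (hY : Y.dim = d) :
    ∃ m : K →₀ ℤ, IsZeta C F (X.prod Y) m ∧ ∀ t : ℤ, ph q m (d + t) =
      dot (hd X) (tr ((q : K) ^ (-t)) (zpow_ne_zero _ (Nat.cast_ne_zero.2 hq)) (hd Y)) := by
  have hqK : (q : K) ≠ 0 := Nat.cast_ne_zero.2 hq
  obtain ⟨m, hm0, hm, hmc⟩ := hV K (hd X) (hd Y) (hf.zeta X).1 (hf.zeta Y).1
  refine ⟨m, ⟨hm0, fun n hn => ?_⟩, fun t => ?_⟩
  · rw [pts_prod hP hne hF, hm, ← (hf.zeta X).2 n hn, ← (hf.zeta Y).2 n hn]
    push_cast
    rfl
  · rw [ph, hmc _ (zpow_ne_zero _ hqK), dot]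
    refine Finsupp.sum_congr fun α _ => ?_
    rw [tr_apply, ← hf.symm Y, hY]
    congr 2
    rw [zpow_add₀ hqK, zpow_natCast, zpow_neg]
    by_cases hα : α = 0
    · simp [hα]
    · field_simp

lemma tr_sub (c : K) (hc : c ≠ 0) (m m' : K →₀ ℤ) : tr c hc (m - m') = tr c hc m - tr c hc m' := by
  ext α
  rfl

lemma zpow_ne_one (hq : 1 < q) {z : ℤ} (hz : z ≠ 0) : (q : K) ^ z ≠ 1 := by
  intro h
  have h1 : (((q : ℚ) ^ z : ℚ) : K) = ((1 : ℚ) : K) := by
    push_cast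
    exact h
  have h2 : (q : ℚ) ^ z = 1 := by exact_mod_cast h1
  have h3 : (1 : ℚ) < q := by exact_mod_cast hq
  exact hz ((zpow_eq_one_iff_right₀ (by linarith) h3.ne').1 h2)

/-- The equality of the sums over the products of two projective spaces suffices. -/
lemma sameZeta_of_sums (hP : S_PTS.{u, v}) (hU : S_UNIQ.{w}) (hV : S_CONV.{w})
    (hne : ∀ X : 𝒱.Obj, (1 : C.A X) ≠ 0) (hq : 1 < q)
    (hF : IsFrobenius C q F) (hf : Facts K hd C q F) {X Y : 𝒱.Obj} {d : ℕ} (hX : X.dim = d)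
    (hY : Y.dim = d) (n l : ℕ)
    (h1 : ∀ m m' : K →₀ ℤ, IsZeta C F (X.prod X) m → IsZeta C F (X.prod Y) m' →
      ∀ a b : ℕ, a + b = n + l → sop b (sop a (ph q m)) (d + n) = sop b (sop a (ph q m')) (d + n))
    (h2 : ∀ m m' : K →₀ ℤ, IsZeta C F (X.prod Y) m → IsZeta C F (Y.prod Y) m' →
      ∀ a b : ℕ, a + b = n + l → sop b (sop a (ph q m)) (d + n) = sop b (sop a (ph q m')) (d + n)) :
    SameZeta C F X Y := by
  have hq0 : q ≠ 0 := by omega
  have hqK : (q : K) ≠ 0 := Nat.cast_ne_zero.2 hq0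
  obtain ⟨mXX, zXX, fXX⟩ := zeta_XY (K := K) hP hV hne hq0 hF hf X hX
  obtain ⟨mXY, zXY, fXY⟩ := zeta_XY (K := K) hP hV hne hq0 hF hf X hY
  obtain ⟨mYX, zYX, fYX⟩ := zeta_XY (K := K) hP hV hne hq0 hF hf Y hX
  obtain ⟨mYY, zYY, fYY⟩ := zeta_XY (K := K) hP hV hne hq0 hF hf Y hY
  have e : mYX = mXY := by
    refine isZeta_unique hU (X := X.prod Y) ⟨zYX.1, fun r hr => ?_⟩ zXY
    rw [← zYX.2 r hr, pts_prod hP hne hF, pts_prod hP hne hF, mul_comm]
  subst e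
  have s1 := sop_step n l _ _ _ (h1 _ _ zXX zXY)
  have s2 := sop_step n l _ _ _ (h2 _ _ zXY zYY)
  have e1 : (d : ℤ) + n - n = d + 0 := by ring
  have e2 : (d : ℤ) + n - l = d + (n - l) := by ring
  rw [e1, e2, fXX, fXX, fXY, fXY] at s1
  rw [e1, e2, fXY, fXY, fYY, fYY] at s2
  set t : ℤ := n - l with ht
  have sym0 := (fXY 0).symm.trans (fYX 0)
  have symt := (fXY t).symm.trans (fYX t)
  have t0 : ∀ m : K →₀ ℤ, tr ((q : K) ^ (-(0 : ℤ))) (zpow_ne_zero _ hqK) m = m := by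
    intro m
    ext α
    rw [tr_apply, neg_zero, zpow_zero, one_mul]
  simp only [t0] at s1 s2 sym0
  rw [sameZeta_iff hU (hf.zeta X) (hf.zeta Y), ← sub_eq_zero]
  refine eq_zero_of_tr ((q : K) ^ (-t)) (zpow_ne_zero _ hqK) ?_ _ ?_ ?_
  · by_cases h : t = 0
    · left
      rw [h, neg_zero, zpow_zero]
    · right
      intro r hr
      rw [← zpow_natCast, ← zpow_mul]
      exact zpow_ne_one hq (mul_ne_zero (neg_ne_zero.2 h) (by omega))
  · rw [Finsupp.coe_sub, Pi.sub_apply, (hf.zeta X).1, (hf.zeta Y).1, sub_self]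
  · rw [tr_sub, dot_sub_left, dot_sub_right, dot_sub_right, dot_sub_left, dot_sub_right,
      dot_sub_right]
    linarith

end Pool.Agent.P8H64.ZO
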