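import Pool.Agent.P8H64.ZO.Main
import Pool.Agent.P8H64.OO.Final

/-!
# One pole decides: the theorem from the packages
-/

set_option autoImplicit false

open CategoryTheory AlgebraicGeometry

universe u v w

namespace Pool.Agent.P8H64.ZO

open Pool.Agent.H914 Pool.Agent.H914.VarClass Pool.Agent.H914.VarClass.Obj Pool.Agent.W492.BB
  Pool.Agent.TH133 Pool.Agent.P8H64.OO Pool.Agent.W550.Corr Pool.Agent.TH829.Kim

variable {k : Type u} [Field k] {𝒱 : VarClass k} {C : TheoryData.{u, v, 0} 𝒱 ℚ}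
  [hC : IsChowProj C] {K : Type w} [Field K] [CharZero K] [IsAlgClosed K] {q : ℕ}
  {F : ∀ X : 𝒱.Obj, X ⟶ X}

theorem asm (hP : S_PTS.{u, v}) (hT : S_TR.{u, v, w}) (hL : S_LIN.{v, w}) (hU : S_UNIQ.{w})
    (hV : S_CONV.{w}) (H : WeilTheoryData.{u, v, w} C K) [hH : IsWeilComm H] (hq : 1 < q)
    (hF : IsFrobenius C q F) :
    (∀ X : 𝒱.Obj, ∃! m : K →₀ ℤ, IsZeta C F X m) ∧
    (∀ X Y : 𝒱.Obj, X.dim = Y.dim →
      2 * poleOrder C K q F (X.prod Y) X.dim ≤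
        poleOrder C K q F (X.prod X) X.dim + poleOrder C K q F (Y.prod Y) Y.dim ∧
      (2 * poleOrder C K q F (X.prod Y) X.dim =
        poleOrder C K q F (X.prod X) X.dim + poleOrder C K q F (Y.prod Y) Y.dim ↔
        SameZeta C F X Y)) ∧
    ∀ R : 𝒱.Obj → 𝒱.Obj → Prop, IsStable R →
      (∀ d j : ℕ, 1 ≤ j → (∀ Z W : 𝒱.Obj, R Z W → Z.dim = 2 * (j * d) →
          poleOrder C K q F Z (j * d) = poleOrder C K q F W (j * d)) →
        ∀ X Y : 𝒱.Obj, R X Y → X.dim = d → SameZeta C F X Y) ∧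
      List.TFAE [∀ X Y : 𝒱.Obj, R X Y → SameZeta C F X Y,
        ∀ X Y : 𝒱.Obj, R X Y → ∀ i : ℕ, poleOrder C K q F X i = poleOrder C K q F Y i,
        ∀ X Y : 𝒱.Obj, R X Y → ∀ m : ℕ, X.dim = 2 * m →
          poleOrder C K q F X m = poleOrder C K q F Y m,
        ∀ X Y : 𝒱.Obj, R X Y →
          poleOrder C K q F (X.prod X) X.dim ≤ poleOrder C K q F (X.prod Y) X.dim] ∧
      ((∀ (Z : 𝒱.Obj) (m : ℕ), Z.dim = 2 * m → poleOrder C K q F Z m = rk C Z m) →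
        ((∀ X Y : 𝒱.Obj, R X Y → NumIsom C X Y) ↔ ∀ X Y : 𝒱.Obj, R X Y → SameZeta C F X Y) ∧
        ((∀ X : 𝒱.Obj, IsKimuraFinite C (ratFam C) X) →
          ((∀ X Y : 𝒱.Obj, R X Y → ChowIso C X Y) ↔
            ∀ X Y : 𝒱.Obj, R X Y → SameZeta C F X Y))) := by
  have hq0 : q ≠ 0 := by omega
  have hne := (nz H).ne
  obtain ⟨hd, hf⟩ := exists_facts hT hL hU H hq0 hF
  refine ⟨fun X => ⟨hd X, hf.zeta X, fun m hm => isZeta_unique hU hm (hf.zeta X)⟩,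
    fun X Y h => pole_le hP hU hV hne hq0 hF hf h, fun R hR => ?_⟩
  have htf : List.TFAE [∀ X Y : 𝒱.Obj, R X Y → SameZeta C F X Y,
        ∀ X Y : 𝒱.Obj, R X Y → ∀ i : ℕ, poleOrder C K q F X i = poleOrder C K q F Y i,
        ∀ X Y : 𝒱.Obj, R X Y → ∀ m : ℕ, X.dim = 2 * m →
          poleOrder C K q F X m = poleOrder C K q F Y m,
        ∀ X Y : 𝒱.Obj, R X Y →
          poleOrder C K q F (X.prod X) X.dim ≤ poleOrder C K q F (X.prod Y) X.dim] := by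
    tfae_have 1 → 2 := fun h X Y hXY i => (h X Y hXY).poleOrder_eq i
    tfae_have 2 → 3 := fun h X Y hXY m _ => h X Y hXY m
    tfae_have 3 → 4 := fun h X Y hXY =>
      (h _ _ (hR.prod (hR.equivalence.refl X) hXY) X.dim (by rw [dim_prod]; ring)).le
    tfae_have 4 → 1 := by
      intro h X Y hXY
      have h1 := h X Y hXY
      have h2 := h Y X (hR.equivalence.symm hXY)
      rw [← pole_comm hP hU hV hne hq0 hF hf (hR.dim_eq hXY)] at h2
      obtain ⟨h3, h4⟩ := pole_le hP hU hV hne hq0 hF hf (hR.dim_eq hXY)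
      exact h4.1 (by linarith)
    tfae_finish
  refine ⟨fun d j hj hmid X Y h hX => sameZeta_of_mid_pow hR hP hU hV hne hq0 hF hf d j hj hmid h hX,
    htf, fun hTate => ?_⟩
  obtain ⟨-, -, hO⟩ := final H
  obtain ⟨-, hO2, hO3⟩ := hO R hR
  have e1 : (∀ X Y : 𝒱.Obj, R X Y → ∀ m : ℕ, X.dim = 2 * m → rk C X m = rk C Y m) ↔
      ∀ X Y : 𝒱.Obj, R X Y → ∀ m : ℕ, X.dim = 2 * m →
          poleOrder C K q F X m = poleOrder C K q F Y m := by
    refine forall₃_congr fun X Y hXY => forall₂_congr fun m hm => ?_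
    rw [hTate X m hm, hTate Y m (by rw [← hR.dim_eq hXY, hm])]
    exact Nat.cast_inj.symm
  have e2 := htf.out 0 2
  refine ⟨?_, fun hK => ?_⟩
  · rw [e2, ← e1]
    exact hO2.out 0 2
  · rw [e2, ← e1]
    exact hO3 hK

end Pool.Agent.P8H64.ZO
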