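import Pool.Agent.P8H64.ZO.Stm

/-!
# Project ZO, package CONV: the multiplicity function of a product
-/

set_option autoImplicit false

universe w

namespace Pool.Agent.P8H64.ZO

theorem conv_ : S_CONV := by
  classical
  intro K _ m m' h0 h0'
  have hne : ∀ α ∈ m.support, α ≠ 0 := by
    rintro α hα rfl
    exact Finsupp.mem_support_iff.1 hα h0
  have hne' : ∀ α ∈ m'.support, α ≠ 0 := by
    rintro α hα rfl
    exact Finsupp.mem_support_iff.1 hα h0'
  refine ⟨∑ α ∈ m.support, ∑ β ∈ m'.support, Finsupp.single (α * β) (m α * m' β), ?_, ?_, ?_⟩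
  · rw [Finsupp.finsetSum_apply]
    refine Finset.sum_eq_zero fun α hα => ?_
    rw [Finsupp.finsetSum_apply]
    refine Finset.sum_eq_zero fun β hβ => ?_
    rw [Finsupp.single_apply, if_neg (mul_ne_zero (hne α hα) (hne' β hβ))]
  · intro n
    have h1 : ∀ x : K →₀ ℤ, (x.sum fun α a => (a : K) * α ^ n) =
        Finsupp.liftAddHom (fun α : K => (AddMonoidHom.mulRight (α ^ n)).comp
          (Int.castAddHom K)) x := by
      intro x
      rw [Finsupp.liftAddHom_apply]
      rfl
    rw [h1 (∑ α ∈ m.support, ∑ β ∈ m'.support, Finsupp.single (α * β) (m α * m' β)), map_sum]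
    unfold Finsupp.sum
    rw [Finset.sum_mul_sum]
    refine Finset.sum_congr rfl fun α _ => ?_
    rw [map_sum]
    refine Finset.sum_congr rfl fun β _ => ?_
    rw [Finsupp.liftAddHom_apply_single]
    simp only [AddMonoidHom.comp_apply, Int.coe_castAddHom, AddMonoidHom.coe_mulRight]
    push_cast
    ring
  · intro c hc
    rw [Finsupp.finsetSum_apply]
    unfold Finsupp.sum
    refine Finset.sum_congr rfl fun α hα => ?_
    rw [Finsupp.finsetSum_apply]
    have h1 : ∀ β ∈ m'.support, (Finsupp.single (α * β) (m α * m' β)) c =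
        if c / α = β then m α * m' β else 0 := by
      intro β _
      rw [Finsupp.single_apply]
      by_cases h2 : α * β = c
      · rw [if_pos h2, if_pos]
        rw [← h2, mul_div_cancel_left₀ _ (hne α hα)]
      · rw [if_neg h2, if_neg]
        rintro rfl
        exact h2 (mul_div_cancel₀ _ (hne α hα))
    rw [Finset.sum_congr rfl h1, Finset.sum_ite_eq]
    by_cases h2 : c / α ∈ m'.support
    · rw [if_pos h2]
    · rw [if_neg h2]
      change 0 = m α * m' (c / α)
      rw [Finsupp.notMem_support_iff.1 h2, mul_zero]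

end Pool.Agent.P8H64.ZO
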