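import Pool.Agent.P8H64.ZO.Stm

/-!
# Project ZO, package LIN: multiplicities of the eigenvalues
-/

set_option autoImplicit false

universe v w

namespace Pool.Agent.P8H64.ZO

open Module

section

variable {K : Type w} [Field K] {V : Type v} [AddCommGroup V] [Module K V]

/-- the trace of an involution is an integer -/
lemma trace_invol [CharZero K] [Module.Finite K V] (P : Module.End K V) (h : P * P = 1) :
    ∃ a : ℤ, LinearMap.trace K V P = (a : K) := by
  have h2 : (2 : K) ≠ 0 := two_ne_zero
  set e : Module.End K V := (2 : K)⁻¹ • (1 + P) with he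
  have hid : IsIdempotentElem e := by
    unfold IsIdempotentElem
    rw [he, smul_mul_smul_comm]
    have h3 : (1 + P) * (1 + P) = (2 : K) • (1 + P) := by
      rw [add_mul, one_mul, mul_add, mul_one, h, two_smul]
      abel
    rw [h3, smul_smul]
    congr 1
    field_simp
  have h3 : LinearMap.trace K V e = (finrank K (LinearMap.range e) : K) :=
    (LinearMap.IsIdempotentElem.isProj_range e hid).trace
  have h4 : P = (2 : K) • e - 1 := by
    rw [he, smul_smul, mul_inv_cancel₀ h2, one_smul]
    abel
  refine ⟨2 * (finrank K (LinearMap.range e) : ℤ) - finrank K V, ?_⟩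
  rw [h4, map_sub, map_smul, h3, LinearMap.trace_one]
  push_cast
  rw [smul_eq_mul]

lemma trace_mul_pow (P T : Module.End K V) (hc : Commute P T) (μ : K)
    (hn : IsNilpotent (T - algebraMap K _ μ)) (n : ℕ) :
    LinearMap.trace K V (P * T ^ n) = μ ^ n * LinearMap.trace K V P := by
  induction n with
  | zero => rw [pow_zero, mul_one, pow_zero, one_mul]
  | succ n ih =>
    have h1 : P * T ^ (n + 1) = (P * T ^ n) ∘ₗ T := by
      rw [pow_succ, ← mul_assoc]
      rfl
    have h2 : Commute (P * T ^ n) T := hc.mul_left (Commute.pow_self T n)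
    rw [h1, LinearMap.trace_comp_eq_mul_of_commute_of_isNilpotent μ h2 hn, ih, pow_succ]
    ring

lemma restrict_pow_coe (f : Module.End K V) (W : Submodule K V) (h : ∀ x ∈ W, f x ∈ W) (n : ℕ)
    (x : W) : ((((f.restrict h) ^ n) x : W) : V) = (f ^ n) (x : V) := by
  rw [Module.End.pow_restrict n h]
  rfl

/-- the nilpotent part of the inverse -/
lemma nil_inv (T T' : Module.End K V) (c : K) (h1 : T * T' = algebraMap K _ c)
    (h2 : T' * T = algebraMap K _ c) (μ : K) (hμ : μ ≠ 0)
    (hn : IsNilpotent (T - algebraMap K _ μ)) : IsNilpotent (T' - algebraMap K _ (c / μ)) := by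
  have h3 : T' - algebraMap K _ (c / μ) = (-μ⁻¹) • (T' * (T - algebraMap K _ μ)) := by
    rw [mul_sub, h2, ← Algebra.commutes, ← Algebra.smul_def, smul_sub, smul_smul, neg_mul,
      inv_mul_cancel₀ hμ, neg_smul, neg_smul, one_smul, Algebra.smul_def, ← map_mul,
      show μ⁻¹ * c = c / μ from by rw [div_eq_mul_inv, mul_comm]]
    abel
  rw [h3]
  apply IsNilpotent.smul
  apply Commute.isNilpotent_mul_left _ hn
  refine Commute.sub_right ?_ (Algebra.commute_algebraMap_right μ T')
  unfold Commute SemiconjBy
  rw [h1, h2]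

end

section

variable {K : Type w} [Field K] [IsAlgClosed K] {V : Type v} [AddCommGroup V] [Module K V]
  [Module.Finite K V]

lemma trace_sum (T f : Module.End K V) (hc : Commute T f) :
    LinearMap.trace K V f = ∑ μ ∈ (WellFoundedGT.finite_ne_bot_of_iSupIndep
      T.independent_maxGenEigenspace).toFinset, LinearMap.trace K (T.maxGenEigenspace μ)
        (f.restrict (T.mapsTo_maxGenEigenspace_of_comm hc μ)) := by
  classical
  have hds := DirectSum.isInternal_submodule_of_iSupIndep_of_iSup_eq_top
    T.independent_maxGenEigenspace T.iSup_maxGenEigenspace_eq_top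
  exact LinearMap.trace_eq_sum_trace_restrict' hds _
    (fun μ => T.mapsTo_maxGenEigenspace_of_comm hc μ)

end

theorem lin_ : S_LIN := by
  classical
  intro K _ _ _ V _ _ _ P T T' c hc hP hPT h1 h2
  have hTT' : Commute T T' := by
    unfold Commute SemiconjBy
    rw [h1, h2]
  have hPT' : Commute P T' := by
    have h3 : T * (P * T') = T * (T' * P) := by
      rw [← mul_assoc, ← hPT.eq, mul_assoc, h1, ← mul_assoc, h1, Algebra.commutes]
    have h4 : T' * (T * (P * T')) = T' * (T * (T' * P)) := by rw [h3]
    rw [← mul_assoc T' T (P * T'), ← mul_assoc T' T (T' * P), h2, ← Algebra.smul_def,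
      ← Algebra.smul_def] at h4
    exact smul_right_injective _ hc h4
  -- the restrictions
  have hPr : ∀ μ, Set.MapsTo P (T.maxGenEigenspace μ) (T.maxGenEigenspace μ) := fun μ =>
    T.mapsTo_maxGenEigenspace_of_comm hPT.symm μ
  have hTr : ∀ μ, Set.MapsTo T (T.maxGenEigenspace μ) (T.maxGenEigenspace μ) := fun μ =>
    T.mapsTo_maxGenEigenspace_of_comm (Commute.refl T) μ
  have hTr' : ∀ μ, Set.MapsTo T' (T.maxGenEigenspace μ) (T.maxGenEigenspace μ) := fun μ =>
    T.mapsTo_maxGenEigenspace_of_comm hTT' μ
  have hn : ∀ μ, IsNilpotent (T.restrict (hTr μ) - algebraMap K _ μ) := fun μ =>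
    T.isNilpotent_restrict_maxGenEigenspace_sub_algebraMap μ
  have hr1 : ∀ μ, T.restrict (hTr μ) * T'.restrict (hTr' μ) = algebraMap K _ c := by
    intro μ
    ext x
    exact congrArg (fun f : Module.End K V => f x) h1
  have hr2 : ∀ μ, T'.restrict (hTr' μ) * T.restrict (hTr μ) = algebraMap K _ c := by
    intro μ
    ext x
    exact congrArg (fun f : Module.End K V => f x) h2
  have hPP : ∀ μ, P.restrict (hPr μ) * P.restrict (hPr μ) = 1 := by
    intro μ
    ext x
    exact congrArg (fun f : Module.End K V => f x) hP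
  have hcPT : ∀ μ, Commute (P.restrict (hPr μ)) (T.restrict (hTr μ)) := by
    intro μ
    refine LinearMap.ext fun x => Subtype.ext ?_
    exact congrArg (fun f : Module.End K V => f x) hPT.eq
  have hcPT' : ∀ μ, Commute (P.restrict (hPr μ)) (T'.restrict (hTr' μ)) := by
    intro μ
    refine LinearMap.ext fun x => Subtype.ext ?_
    exact congrArg (fun f : Module.End K V => f x) hPT'.eq
  choose m hm using fun μ => trace_invol (P.restrict (hPr μ)) (hPP μ)
  set F := (WellFoundedGT.finite_ne_bot_of_iSupIndep T.independent_maxGenEigenspace).toFinset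
    with hF
  have hmF : ∀ μ, m μ ≠ 0 → μ ∈ F := by
    intro μ hμ
    rw [hF, Set.Finite.mem_toFinset, Set.mem_ofPred_eq]
    intro hb
    apply hμ
    have h3 : P.restrict (hPr μ) = 0 := by
      refine LinearMap.ext fun x => Subtype.ext ?_
      have h4 : (x : V) = 0 := (Submodule.mem_bot K).1 (hb ▸ x.2 : (x : V) ∈ (⊥ : Submodule K V))
      change P (x : V) = 0
      rw [h4, map_zero]
    have h4 := hm μ
    rw [h3, map_zero] at h4
    exact_mod_cast h4.symm
  have hm0 : m 0 = 0 := by
    obtain ⟨k, hk⟩ := hn 0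
    rw [map_zero, sub_zero] at hk
    have hcm : Commute (T.restrict (hTr 0)) (T'.restrict (hTr' 0)) := by
      unfold Commute SemiconjBy
      rw [hr1, hr2]
    have h3 : algebraMap K (Module.End K (T.maxGenEigenspace (0 : K))) (c ^ k) = 0 := by
      rw [map_pow, ← hr1 0, hcm.mul_pow, hk, zero_mul]
    have h4 : P.restrict (hPr 0) = 0 := by
      have h5 : c ^ k • P.restrict (hPr 0) = 0 := by
        rw [Algebra.smul_def, h3, zero_mul]
      exact (smul_eq_zero.1 h5).resolve_left (pow_ne_zero _ hc)
    have h5 := hm 0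
    rw [h4, map_zero] at h5
    exact_mod_cast h5.symm
  refine ⟨Finsupp.onFinset F m hmF, hm0, fun n => ?_, fun n => ?_⟩
  · rw [Finsupp.onFinset_sum hmF (fun a => by simp),
      trace_sum T (P * T ^ n) ((hPT.symm.mul_right (Commute.self_pow T n)))]
    refine Finset.sum_congr rfl fun μ _ => ?_
    rw [← hm μ, mul_comm, ← trace_mul_pow _ _ (hcPT μ) μ (hn μ) n]
    congr 1
    refine LinearMap.ext fun x => Subtype.ext ?_
    exact congrArg P (restrict_pow_coe T _ (hTr μ) n x).symm
  · rw [Finsupp.onFinset_sum hmF (fun a => by simp),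
      trace_sum T (P * T' ^ n) ((hPT.symm.mul_right (hTT'.pow_right n)))]
    refine Finset.sum_congr rfl fun μ _ => ?_
    by_cases hμ : μ = 0
    · subst hμ
      rw [hm0]
      have h4 : P.restrict (hPr 0) = 0 := by
        obtain ⟨k, hk⟩ := hn 0
        rw [map_zero, sub_zero] at hk
        have hcm : Commute (T.restrict (hTr 0)) (T'.restrict (hTr' 0)) := by
          unfold Commute SemiconjBy
          rw [hr1, hr2]
        have h3 : algebraMap K (Module.End K (T.maxGenEigenspace (0 : K))) (c ^ k) = 0 := by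
          rw [map_pow, ← hr1 0, hcm.mul_pow, hk, zero_mul]
        have h5 : c ^ k • P.restrict (hPr 0) = 0 := by
          rw [Algebra.smul_def, h3, zero_mul]
        exact (smul_eq_zero.1 h5).resolve_left (pow_ne_zero _ hc)
      have h5 : (P * T' ^ n).restrict (T.mapsTo_maxGenEigenspace_of_comm
          (hPT.symm.mul_right (hTT'.pow_right n)) 0) = 0 := by
        refine LinearMap.ext fun x => Subtype.ext ?_
        have h6 : ((T' ^ n) (x : V)) ∈ T.maxGenEigenspace (0 : K) :=
          T.mapsTo_maxGenEigenspace_of_comm (hTT'.pow_right n) 0 x.2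
        exact congrArg (fun f : Module.End K (T.maxGenEigenspace (0 : K)) =>
          ((f ⟨_, h6⟩ : T.maxGenEigenspace (0 : K)) : V)) h4
      rw [h5, map_zero]
      simp
    · rw [← hm μ, mul_comm, ← trace_mul_pow _ _ (hcPT' μ) (c / μ)
        (nil_inv _ _ c (hr1 μ) (hr2 μ) μ hμ (hn μ)) n]
      congr 1
      refine LinearMap.ext fun x => Subtype.ext ?_
      exact congrArg P (restrict_pow_coe T' _ (hTr' μ) n x).symm

end Pool.Agent.P8H64.ZO
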