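import Pool.Agent.P8H64.ZO.Pts
import Pool.Agent.P8H64.OO.Str

/-!
# Project ZO, package TR: the Lefschetz trace formula for the iterates of an endomorphism
-/

set_option autoImplicit false

open CategoryTheory AlgebraicGeometry

universe u v w

namespace Pool.Agent.P8H64.ZO

open Pool.Agent.H914 Pool.Agent.H914.VarClass Pool.Agent.H914.VarClass.Obj Pool.Agent.W492.BB
  Pool.Agent.W550.Corr Pool.Agent.TH133 Pool.Agent.TH829.Prime Pool.Agent.TH829.Kim
  Pool.Agent.P8H64.OO

section pf

variable {k : Type u} [Field k] {𝒱 : VarClass k} {C : TheoryData.{u, v, 0} 𝒱 ℚ}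
  [hC : IsChowProj C] {X Y : 𝒱.Obj}

include hC

/-- The cograph has the same pull-back to the diagonal as the graph. -/
lemma diag_cograph (f : X ⟶ X) : C.pull (Obj.lift (𝟙 X) (𝟙 X)) (C.cograph f) =
    C.pull (Obj.lift (𝟙 X) (𝟙 X)) (C.graph f) := by
  have e1 : Obj.lift (𝟙 X) f ≫ sw X X = Obj.lift f (𝟙 X) := by
    apply prod_ext <;> simp [sw]
  have e2 : Obj.lift (𝟙 X) (𝟙 X) ≫ sw X X = Obj.lift (𝟙 X) (𝟙 X) := by
    apply prod_ext <;> simp [sw]
  have h1 : C.cograph f = C.pull (sw X X) (C.graph f) := by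
    rw [pull_iso C (sw X X) (sw X X) sw_sw sw_sw, TheoryData.graph, ← C.push_comp, e1]
    rfl
  rw [h1, ← C.pull_comp, e2]

lemma cograph_mem (f : X ⟶ X) : C.cograph f ∈ C.gr (X.prod X) X.dim := by
  have h := C.push_mem (Obj.lift f (𝟙 X)) (C.one_mem X)
  have e1 : (0 : ℤ) + 1 * (((X.prod X).dim : ℤ) - (X.dim : ℤ)) = X.dim := by
    rw [dim_prod]; push_cast; ring
  rwa [e1] at h

end pf

section weil

variable {k : Type u} [Field k] {𝒱 : VarClass k} {C : TheoryData.{u, v, 0} 𝒱 ℚ}
  [hC : IsChowProj C] {K : Type w} [Field K] (H : WeilTheoryData.{u, v, w} C K)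
  [hH : IsWeilComm H] {X Y : 𝒱.Obj}

include hC hH

lemma sgn_sq : sgn H X * sgn H X = 1 := by
  apply ext_gr H
  intro m a ha
  rw [Module.End.mul_apply, sgn_apply H ha, map_smul, sgn_apply H ha, smul_smul, sg_mul_self,
    one_smul]
  rfl

lemma sgn_comm (T : Module.End K (H.A X)) (hT : ∀ i, ∀ a ∈ H.gr X i, T a ∈ H.gr X i) :
    Commute (sgn H X) T := by
  apply ext_gr H
  intro m a ha
  rw [Module.End.mul_apply, Module.End.mul_apply, sgn_apply H ha, map_smul, sgn_apply H (hT m a ha)]

/-- The trace formula for the correspondence `z`. -/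
lemma trace_cor {z : C.A (X.prod X)} (hz : z ∈ C.gr (X.prod X) X.dim) {q : ℚ}
    (hq : HasDegree C (C.pull (Obj.lift (𝟙 X) (𝟙 X)) z) q) :
    LinearMap.trace K (H.A X) (sgn H X * H.actL (H.cl z)) = (q : K) := by
  obtain ⟨l, hl⟩ := exists_lam H X
  have h1 := trace_formula H hl (H.cl_mem hz)
  rw [h1, ← H.cl_pull]
  have h2 := hl (H.cl (C.pull (Obj.lift (𝟙 X) (𝟙 X)) z))
  rw [← H.cl_pull, ← H.cl_push, (hq X).1, cl_rat H X q] at h2
  have h3 : ((q : K) - l (H.cl (C.pull (Obj.lift (𝟙 X) (𝟙 X)) z))) • (1 : H.A X) = 0 := by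
    rw [sub_smul, h2, sub_self]
  rcases smul_eq_zero.1 h3 with h4 | h4
  · exact (sub_eq_zero.1 h4).symm
  · exact absurd h4 (hH.toIsWeilProj.one_ne_zero X)

lemma actL_graph (f : X ⟶ X) : H.actL (H.cl (C.graph f)) = H.push f := by
  apply LinearMap.ext
  intro a
  have h : H.cl (C.graph f) = H.graph f := by
    rw [TheoryData.graph, TheoryData.graph, H.cl_push, map_one]
  rw [h, TheoryData.actL_apply, H.act_graph]

lemma actL_cograph (f : X ⟶ X) : H.actL (H.cl (C.cograph f)) = (H.pull f).toLinearMap := by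
  apply LinearMap.ext
  intro a
  have h : H.cl (C.cograph f) = H.cograph f := by
    rw [TheoryData.cograph, TheoryData.cograph, H.cl_push, map_one]
  rw [h, TheoryData.actL_apply, H.act_cograph]
  rfl

omit hC in
lemma push_iter (f : X ⟶ X) (n : ℕ) : (H.push (iter f n) : Module.End K (H.A X)) =
    (H.push f : Module.End K (H.A X)) ^ n := by
  induction n with
  | zero =>
    apply LinearMap.ext
    intro a
    rw [pow_zero]
    exact H.push_id a
  | succ n ih =>
    apply LinearMap.ext
    intro a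
    rw [pow_succ', ← ih]
    exact H.push_comp (iter f n) f a

omit hC in
lemma pull_iter (f : X ⟶ X) (n : ℕ) : ((H.pull (iter f n)).toLinearMap : Module.End K (H.A X)) =
    ((H.pull f).toLinearMap : Module.End K (H.A X)) ^ n := by
  induction n with
  | zero =>
    apply LinearMap.ext
    intro a
    rw [pow_zero]
    exact H.pull_id a
  | succ n ih =>
    apply LinearMap.ext
    intro a
    rw [pow_succ, ← ih]
    exact H.pull_comp (iter f n) f a

end weil

theorem tr_ : S_TR.{u, v, w} := by
  intro k _ 𝒱 C hC K _ _ H hH X f c hc hf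
  have hne : ∀ X : 𝒱.Obj, (1 : C.A X) ≠ 0 := by
    intro Z h
    apply hH.toIsWeilProj.one_ne_zero Z
    rw [← map_one H.cl, h, map_zero]
  have hfin := finite_A H X
  have hcK : (c : K) ≠ 0 := by exact_mod_cast hc
  have hTT : (H.push f : Module.End K (H.A X)) * ((H.pull f).toLinearMap : Module.End K (H.A X)) =
      algebraMap K _ (c : K) := by
    apply LinearMap.ext
    intro a
    have h1 : H.push f (H.pull f a) = (c : K) • a := by
      have h2 := H.proj_right f 1 a
      rw [one_mul] at h2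
      rw [h2]
      have h3 : H.push f 1 = (c : K) • (1 : H.A X) := by
        rw [← cl_rat H X c, ← hf, TheoryData.down, H.cl_push, map_one H.cl]
      rw [h3, smul_mul_assoc, one_mul]
    rw [Module.algebraMap_end_apply]
    exact h1
  have hTT' : ((H.pull f).toLinearMap : Module.End K (H.A X)) * (H.push f : Module.End K (H.A X)) =
      algebraMap K _ (c : K) := by
    have h1 : ((c : K)⁻¹ • (H.push f : Module.End K (H.A X))) *
        ((H.pull f).toLinearMap : Module.End K (H.A X)) = 1 := by
      rw [smul_mul_assoc, hTT, Algebra.algebraMap_eq_smul_one, smul_smul, inv_mul_cancel₀ hcK,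
        one_smul]
    have h2 := mul_eq_one_comm.1 h1
    rw [mul_smul_comm] at h2
    rw [Algebra.algebraMap_eq_smul_one, ← h2, smul_smul, mul_inv_cancel₀ hcK, one_smul]
  refine ⟨hfin, sgn H X, H.push f, (H.pull f).toLinearMap, sgn_sq H, ?_, ?_, hTT, hTT', ?_⟩
  · apply sgn_comm H
    intro i a ha
    have h1 := H.push_mem f ha
    rwa [sub_self, mul_zero, add_zero] at h1
  · apply sgn_comm H
    intro i a ha
    exact H.pull_mem f ha
  · intro n
    constructor
    · rw [← push_iter, ← actL_graph]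
      exact trace_cor H (graph_mem _) (pts_spec _)
    · rw [← pull_iter, ← actL_cograph]
      refine trace_cor H (cograph_mem _) ?_
      rw [diag_cograph]
      exact pts_spec _

end Pool.Agent.P8H64.ZO
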