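import Pool.Agent.P8H64.ZO.Stm

/-!
# Project ZO, package UNIQ: power sums determine the multiplicities
-/

set_option autoImplicit false

universe w

namespace Pool.Agent.P8H64.ZO

/-- power sums determine the coefficients -/
theorem eq_zero_of_pow_sum {K : Type w} [Field K] (S : Finset K) (h0 : (0 : K) ∉ S) (a : K → K)
    (h : ∀ r : ℕ, 0 < r → ∑ α ∈ S, a α * α ^ r = 0) : ∀ α ∈ S, a α = 0 := by
  have hli : LinearIndependent K (fun α : K => ((powersHom K α : Multiplicative ℕ →* K) :
      Multiplicative ℕ → K)) :=
    (linearIndependent_monoidHom (Multiplicative ℕ) K).comp (fun α => powersHom K α)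
      (powersHom K).injective
  have h1 := (linearIndependent_iff'.1 hli) S (fun α => a α * α) (by
    ext r
    have := h (r.toAdd + 1) (Nat.succ_pos _)
    rw [Finset.sum_apply]
    simp only [Pi.smul_apply, powersHom_apply, smul_eq_mul, Pi.zero_apply]
    rw [← this]
    refine Finset.sum_congr rfl fun α _ => ?_
    rw [pow_succ]
    ring)
  intro α hα
  have h2 := h1 α hα
  rcases mul_eq_zero.1 h2 with h | h
  · exact h
  · exact absurd (h ▸ hα) h0

theorem uniq_ : S_UNIQ := by
  intro K _ _ m m' h0 h0' h
  have h1 : ∀ α ∈ (m - m').support, (((m - m') α : ℤ) : K) = 0 := by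
    refine eq_zero_of_pow_sum _ ?_ (fun α => (((m - m') α : ℤ) : K)) ?_
    · rw [Finsupp.notMem_support_iff, Finsupp.sub_apply, h0, h0', sub_zero]
    · intro r hr
      have h2 : ((m - m').sum fun α a => (a : K) * α ^ r) =
          (m.sum fun α a => (a : K) * α ^ r) - m'.sum fun α a => (a : K) * α ^ r := by
        apply Finsupp.sum_sub_index
        intro a b1 b2
        push_cast
        ring
      rw [h r hr, sub_self] at h2
      exact h2
  have h2 : m - m' = 0 := by
    ext α
    by_contra hα
    have h3 := h1 α (Finsupp.mem_support_iff.2 hα)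
    exact hα (by exact_mod_cast h3)
  exact sub_eq_zero.1 h2

end Pool.Agent.P8H64.ZO
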