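import Pool.Agent.P8H64.ZO.Pole
import Pool.Agent.P8H64.ZO.Pts
import Pool.Agent.P8H64.ZO.Tr
import Pool.Agent.P8H64.ZO.Lin
import Pool.Agent.P8H64.ZO.Uniq
import Pool.Agent.P8H64.ZO.Conv
import Pool.Agent.P8H64.AC.Ptc

/-!
# Every single pole decides: assembly
-/

set_option autoImplicit false

open CategoryTheory AlgebraicGeometry

universe u v w

namespace Pool.Agent.P8H64.ZO

open Pool.Agent.H914 Pool.Agent.H914.VarClass Pool.Agent.H914.VarClass.Obj Pool.Agent.W492.BB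
  Pool.Agent.TH133 Pool.Agent.P8H64.OO Pool.Agent.W550.Corr Pool.Agent.P8H64.AC
  Pool.Agent.TH829.Kim

variable {k : Type u} [Field k] {𝒱 : VarClass k} {C : TheoryData.{u, v, 0} 𝒱 ℚ}
  [hC : IsChowProj C] {K : Type w} [Field K] [CharZero K] [IsAlgClosed K]

theorem everyPole (H : WeilTheoryData.{u, v, w} C K) [hH : IsWeilComm H] {q : ℕ} (hq : 1 < q)
    {F : ∀ X : 𝒱.Obj, X ⟶ X} (hF : IsFrobenius C q F) :
    (∀ X : 𝒱.Obj, ∃! m : K →₀ ℤ, IsZeta C F X m) ∧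
    (∀ X Y : 𝒱.Obj, X.dim = Y.dim →
      2 * poleOrder C K q F (X.prod Y) X.dim ≤
        poleOrder C K q F (X.prod X) X.dim + poleOrder C K q F (Y.prod Y) Y.dim ∧
      (2 * poleOrder C K q F (X.prod Y) X.dim =
        poleOrder C K q F (X.prod X) X.dim + poleOrder C K q F (Y.prod Y) Y.dim ↔
        SameZeta C F X Y) ∧
      (poleOrder C K q F (X.prod X) X.dim = rk C (X.prod X) X.dim →
        poleOrder C K q F (X.prod Y) X.dim = rk C (X.prod Y) X.dim →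
        poleOrder C K q F (Y.prod Y) Y.dim = rk C (Y.prod Y) Y.dim →
        (NumIsom C X Y ↔ SameZeta C F X Y) ∧
        (IsKimuraFinite C (ratFam C) X → IsKimuraFinite C (ratFam C) Y →
          (ChowIso C X Y ↔ SameZeta C F X Y)))) ∧
    ∀ R : 𝒱.Obj → 𝒱.Obj → Prop, IsStable R →
      List.TFAE [∀ X Y : 𝒱.Obj, R X Y → SameZeta C F X Y,
        ∀ X Y : 𝒱.Obj, R X Y → ∀ i : ℕ, poleOrder C K q F X i = poleOrder C K q F Y i,
        ∀ X Y : 𝒱.Obj, R X Y → ∀ m : ℕ, X.dim = 2 * m →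
          poleOrder C K q F X m = poleOrder C K q F Y m,
        ∀ X Y : 𝒱.Obj, R X Y →
          poleOrder C K q F (X.prod X) X.dim ≤ poleOrder C K q F (X.prod Y) X.dim] ∧
      ((∀ N : ℕ, ∃ P : 𝒱.Obj, IsProjectiveSpace C P N) →
        (∀ D i : ℕ, (∀ Z W : 𝒱.Obj, R Z W → Z.dim = D →
            poleOrder C K q F Z i = poleOrder C K q F W i) →
          ∀ X Y : 𝒱.Obj, R X Y → X.dim ≤ i → X.dim + i ≤ D → SameZeta C F X Y) ∧
        ((∀ r : ℕ, ∃ s, r ≤ s ∧ ∃ S : 𝒱.Obj, IsSplitSurface C S s) →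
          (∀ D i : ℕ, AlmostInvariant R (fun Z => poleOrder C K q F Z i) D →
            ∀ X Y : 𝒱.Obj, R X Y → X.dim < i → X.dim + i < D → SameZeta C F X Y) ∧
          ((∀ X Y : 𝒱.Obj, R X Y → SameZeta C F X Y) ↔
            ∀ n : ℕ, ∃ D i : ℕ, n ≤ i ∧ n + i ≤ D ∧
              AlmostInvariant R (fun Z => poleOrder C K q F Z i) D))) := by
  obtain ⟨h1, h2, h3⟩ := asm pts_ tr_ lin_ uniq_ conv_ H hq hF
  obtain ⟨-, hO, -⟩ := final H
  have hq0 : q ≠ 0 := by omega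
  have hne := (nz H).ne
  obtain ⟨hd, hf⟩ := exists_facts tr_ lin_ uniq_ H hq0 hF
  refine ⟨h1, fun X Y hXY => ⟨(h2 X Y hXY).1, (h2 X Y hXY).2, fun e1 e2 e3 => ?_⟩,
    fun R hR => ⟨(h3 R hR).2.1, fun hPs => ⟨fun D i h X Y hXY g1 g2 =>
      sameZeta_of_pole hR pts_ uniq_ conv_ ptc hne hq hF hf hPs D i h hXY g1 g2, fun hS => ?_⟩⟩⟩
  · obtain ⟨-, o2, o3⟩ := hO X Y hXY
    have z := (h2 X Y hXY).2
    rw [e1, e2, e3] at z
    have z' : 2 * rk C (X.prod Y) X.dim = rk C (X.prod X) X.dim + rk C (Y.prod Y) Y.dim ↔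
        SameZeta C F X Y := by
      rw [← z]
      constructor
      · intro h
        exact_mod_cast h
      · intro h
        exact_mod_cast h
    exact ⟨o2.symm.trans z', fun hX hY => (o3 hX hY).symm.trans z'⟩
  · have halm : ∀ D i : ℕ, AlmostInvariant R (fun Z => poleOrder C K q F Z i) D →
        ∀ X Y : 𝒱.Obj, R X Y → X.dim < i → X.dim + i < D → SameZeta C F X Y :=
      fun D i h X Y hXY g1 g2 =>
        sameZeta_of_almost hR pts_ uniq_ conv_ ptc hne hq hF hf hPs hS D i h hXY g1 g2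
    refine ⟨halm, fun h n => ⟨2 * n, n, le_rfl, by omega, fun ε hε => ⟨0, fun Z W hZW hZ => ?_⟩⟩,
      fun h X Y hXY => ?_⟩
    · beta_reduce
      rw [(h Z W hZW).poleOrder_eq n, sub_self, abs_zero, add_zero]
      positivity
    · obtain ⟨D, i, g1, g2, g3⟩ := h (X.dim + 1)
      exact halm D i g3 X Y hXY (by omega) (by omega)

end Pool.Agent.P8H64.ZO
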