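import Pool.Agent.P8H64.ZO.Pole
import Pool.Agent.P8H64.AN.Form
import Pool.Agent.P8H64.AN.Real

/-!
# All or nothing for linear combinations of the orders of poles
-/

set_option autoImplicit false

open CategoryTheory AlgebraicGeometry Finset

universe u v w

namespace Pool.Agent.P8H64.ZO

open Pool.Agent.H914 Pool.Agent.H914.VarClass Pool.Agent.H914.VarClass.Obj Pool.Agent.W492.BB
  Pool.Agent.TH133 Pool.Agent.P8H64.OO Pool.Agent.W550.Corr Pool.Agent.P8H64.AC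
  Pool.Agent.TH829.Kim Pool.Agent.P8H64.AN

section form

variable {K : Type w} [Field K]

lemma dot_tr₂ (c : K) (hc : c ≠ 0) (m m' : K →₀ ℤ) : dot (tr c hc m) (tr c hc m') = dot m m' := by
  unfold dot tr
  rw [Finsupp.sum_equivMapDomain]
  refine Finsupp.sum_congr fun α _ => ?_
  rw [Finsupp.equivMapDomain_apply]
  simp only [Equiv.symm_symm, Equiv.apply_symm_apply]

/-- The translation is selfadjoint up to inversion. -/
lemma dot_tr_swap {c c' : K} (hc : c ≠ 0) (hc' : c' ≠ 0) (h : c * c' = 1) (m m' : K →₀ ℤ) :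
    dot m (tr c hc m') = dot m' (tr c' hc' m) := by
  have e : tr c' hc' (tr c hc m') = m' := by
    ext α
    rw [tr_apply, tr_apply, ← mul_assoc, h, one_mul]
  rw [← dot_tr₂ c' hc' m, e, dot_comm]

end form

variable {k : Type u} [Field k] {𝒱 : VarClass k} {C : TheoryData.{u, v, 0} 𝒱 ℚ}
  [hC : IsChowProj C] {K : Type w} [Field K] [CharZero K] {q : ℕ} {F : ∀ X : 𝒱.Obj, X ⟶ X}
  {hd : 𝒱.Obj → (K →₀ ℤ)}

/-- The equality of the linear combinations for the products with two projective spaces suffices. -/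
lemma sameZeta_of_comb (hz : S_ZALG.{w}) (hP : S_PTS.{u, v}) (hU : S_UNIQ.{w}) (hV : S_CONV.{w})
    (hne : ∀ X : 𝒱.Obj, (1 : C.A X) ≠ 0) (hq : 1 < q)
    (hF : IsFrobenius C q F) (hf : Facts K hd C q F) {X Y : 𝒱.Obj} {d N : ℕ} (hX : X.dim = d)
    (hY : Y.dim = d) (c : ℕ → ℤ) (hc : ∀ i, c i ≠ 0 → d ≤ i ∧ d + i ≤ 2 * d + N)
    (hnz : ∃ k, k ≤ N ∧ c (d + k) + c (d + (N - k)) ≠ 0)
    (h1 : ∀ m m' : K →₀ ℤ, IsZeta C F (X.prod X) m → IsZeta C F (X.prod Y) m' →
      ∀ a b : ℕ, a + b = N → ∑ i ∈ range (2 * d + N + 1), c i * sop b (sop a (ph q m)) i =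
        ∑ i ∈ range (2 * d + N + 1), c i * sop b (sop a (ph q m')) i)
    (h2 : ∀ m m' : K →₀ ℤ, IsZeta C F (X.prod Y) m → IsZeta C F (Y.prod Y) m' →
      ∀ a b : ℕ, a + b = N → ∑ i ∈ range (2 * d + N + 1), c i * sop b (sop a (ph q m)) i =
        ∑ i ∈ range (2 * d + N + 1), c i * sop b (sop a (ph q m')) i) :
    SameZeta C F X Y := by
  have hq0 : q ≠ 0 := by omega
  have hqK : (q : K) ≠ 0 := Nat.cast_ne_zero.2 hq0
  obtain ⟨mXX, zXX, fXX⟩ := zeta_XY (K := K) hP hV hne hq0 hF hf X hX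
  obtain ⟨mXY, zXY, fXY⟩ := zeta_XY (K := K) hP hV hne hq0 hF hf X hY
  obtain ⟨mYX, zYX, fYX⟩ := zeta_XY (K := K) hP hV hne hq0 hF hf Y hX
  obtain ⟨mYY, zYY, fYY⟩ := zeta_XY (K := K) hP hV hne hq0 hF hf Y hY
  have e : mYX = mXY := by
    refine isZeta_unique hU (X := X.prod Y) ⟨zYX.1, fun r hr => ?_⟩ zXY
    rw [← zYX.2 r hr, pts_prod hP hne hF, pts_prod hP hne hF, mul_comm]
  subst e
  have hinv : ∀ t : ℤ, (q : K) ^ (-t) * (q : K) ^ (-(-t)) = 1 := fun t => by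
    rw [← zpow_add₀ hqK]
    simp
  -- the symmetries
  have sXX : ∀ i : ℤ, ph q mXX (2 * d - i) = ph q mXX i := by
    intro i
    have e1 : (2 * d - i : ℤ) = d + (-(i - d)) := by ring
    have e2 : i = d + (i - d) := by ring
    rw [e1, fXX, dot_tr_swap _ (zpow_ne_zero (-(i - d)) hqK)
      (by rw [mul_comm]; exact hinv (i - d)), ← fXX, ← e2]
  have sYY : ∀ i : ℤ, ph q mYY (2 * d - i) = ph q mYY i := by
    intro i
    have e1 : (2 * d - i : ℤ) = d + (-(i - d)) := by ring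
    have e2 : i = d + (i - d) := by ring
    rw [e1, fYY, dot_tr_swap _ (zpow_ne_zero (-(i - d)) hqK)
      (by rw [mul_comm]; exact hinv (i - d)), ← fYY, ← e2]
  have sXY : ∀ i : ℤ, ph q mYX (2 * d - i) = ph q mYX i := by
    intro i
    have e1 : (2 * d - i : ℤ) = d + (-(i - d)) := by ring
    have e2 : i = d + (i - d) := by ring
    rw [e1, fXY, dot_tr_swap _ (zpow_ne_zero (-(i - d)) hqK)
      (by rw [mul_comm]; exact hinv (i - d)), ← fYX, ← e2]
  have step : ∀ f g : ℤ → ℤ, (∀ i, f (2 * d - i) = f i) → (∀ i, g (2 * d - i) = g i) →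
      (∀ a b : ℕ, a + b = N → ∑ i ∈ range (2 * d + N + 1), c i * sop b (sop a f) i =
        ∑ i ∈ range (2 * d + N + 1), c i * sop b (sop a g) i) → ∀ l : ℕ, l ≤ N →
      ∑ k ∈ range (N + 1), (c (d + k) + c (d + (N - k))) * f ((d : ℤ) + k - l) =
        ∑ k ∈ range (N + 1), (c (d + k) + c (d + (N - k))) * g ((d : ℤ) + k - l) := by
    intro f g hf hg h l hl
    have := iso_of_sums hc (fun i => f i - g i) (fun i => by rw [hf, hg]) (fun a b hab => by
      have e : sop a (fun i => f i - g i) = fun i => sop a f i - sop a g i :=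
        funext fun i => sop_sub _ _ _ _
      simp only [e, sop_sub, mul_sub, sum_sub_distrib]
      rw [h a b hab, sub_self]) hl
    simp only [mul_sub, sum_sub_distrib] at this
    exact sub_eq_zero.1 this
  have s1 := step _ _ sXX sXY (h1 _ _ zXX zXY)
  have s2 := step _ _ sXY sYY (h2 _ _ zXY zYY)
  rw [sameZeta_iff hU (hf.zeta X) (hf.zeta Y), ← sub_eq_zero]
  refine hz K (q : K) hqK (fun n hn => zpow_ne_one hq hn) N
    (fun k => c (d + k) + c (d + (N - k))) _ ?_ hnz (fun l hl => ?_)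
  · rw [Finsupp.coe_sub, Pi.sub_apply, (hf.zeta X).1, (hf.zeta Y).1, sub_self]
  · have t1 := s1 l hl
    have t2 := s2 l hl
    have key : ∀ k : ℕ, ((hd X - hd Y).sum fun α a => a * (hd X - hd Y) ((q : K) ^ ((l : ℤ) - k) * α)) =
        ph q mXX ((d : ℤ) + k - l) + ph q mYY ((d : ℤ) + k - l) -
          2 * ph q mYX ((d : ℤ) + k - l) := by
      intro k
      have e1 : ((d : ℤ) + k - l) = d + (k - l) := by ring
      have e2 : ((hd X - hd Y).sum fun α a =>
          a * (hd X - hd Y) ((q : K) ^ ((l : ℤ) - k) * α)) =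
          dot (hd X - hd Y) (tr ((q : K) ^ (-((k : ℤ) - l))) (zpow_ne_zero _ hqK)
            (hd X - hd Y)) := by
        unfold dot
        refine Finsupp.sum_congr fun α _ => ?_
        rw [tr_apply, neg_sub]
      have e3 : ph q mYX ((d : ℤ) + (k - l)) = dot (hd X)
          (tr ((q : K) ^ (-((k : ℤ) - l))) (zpow_ne_zero _ hqK) (hd Y)) := fXY _
      have e4 : ph q mYX ((d : ℤ) + (k - l)) = dot (hd Y)
          (tr ((q : K) ^ (-((k : ℤ) - l))) (zpow_ne_zero _ hqK) (hd X)) := fYX _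
      rw [e1, e2, tr_sub, dot_sub_left, dot_sub_right, dot_sub_right, fXX, fYY, ← e3, ← e4]
      ring
    simp only [key]
    have e : ∀ k : ℕ, (c (d + k) + c (d + (N - k))) *
        (ph q mXX ((d : ℤ) + k - l) + ph q mYY ((d : ℤ) + k - l) -
          2 * ph q mYX ((d : ℤ) + k - l)) =
        (c (d + k) + c (d + (N - k))) * ph q mXX ((d : ℤ) + k - l) +
          (c (d + k) + c (d + (N - k))) * ph q mYY ((d : ℤ) + k - l) -
          2 * ((c (d + k) + c (d + (N - k))) * ph q mYX ((d : ℤ) + k - l)) := fun k => by ring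
    rw [sum_congr rfl fun k _ => e k, sum_sub_distrib, sum_add_distrib, ← mul_sum, t1, ← t2]
    ring

section rel

variable {R : 𝒱.Obj → 𝒱.Obj → Prop} (hR : IsStable R) (hz : S_ZALG.{w}) (hP : S_PTS.{u, v})
  (hU : S_UNIQ.{w})
  (hV : S_CONV.{w}) (hC' : S_PTC.{u, v}) (hne : ∀ X : 𝒱.Obj, (1 : C.A X) ≠ 0) (hq : 1 < q)
  (hF : IsFrobenius C q F) (hf : Facts K hd C q F)
  (hPs : ∀ N : ℕ, ∃ P : 𝒱.Obj, IsProjectiveSpace C P N)

include hR hz hP hU hV hC' hne hq hF hf hPs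

/-- Real linear combinations. -/
theorem sameZeta_of_real {D d : ℕ} {c : ℕ → ℝ} (hc : IsDeep c d D) (hnz : IsNontrivial c D)
    (key : ∀ Z W : 𝒱.Obj, R Z W → Z.dim = D → ∀ m m' : K →₀ ℤ, IsZeta C F Z m →
      IsZeta C F W m' → ∑ i ∈ range (D + 1), c i * (ph q m i : ℝ) =
        ∑ i ∈ range (D + 1), c i * (ph q m' i : ℝ))
    {X Y : 𝒱.Obj} (hXY : R X Y) (hX : X.dim ≤ d) : SameZeta C F X Y := by
  have hq0 : q ≠ 0 := by omega
  obtain ⟨z, hz1, ⟨i, hi, hne'⟩, hz3⟩ := exists_int hc hnz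
  obtain ⟨hi1, hi2⟩ := deep_le hz1 hi hne'
  obtain ⟨e, he⟩ : ∃ e : ℕ, X.dim = e := ⟨_, rfl⟩
  have he' : Y.dim = e := by rw [← hR.dim_eq hXY, he]
  rw [he] at hX
  obtain ⟨N, rfl⟩ : ∃ N, D = 2 * e + N := ⟨D - 2 * e, by omega⟩
  choose P hPp using hPs
  refine sameZeta_of_comb hz hP hU hV hne hq hF hf he he' (N := N) z (fun j hj => ?_)
    ⟨i - e, by omega, ?_⟩ (fun m m' hm hm' a b hab => ?_) fun m m' hm hm' a b hab => ?_
  · have := hz1 j hj
    omega
  · rw [show e + (i - e) = i by omega, show e + (N - (i - e)) = 2 * e + N - i by omega]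
    exact hne'
  · obtain ⟨m1, h1, h2⟩ := zeta_two hP hC' hV hne hq0 hF _ (P a) (P b) a b (hPp a) (hPp b) hm
    obtain ⟨m2, h3, h4⟩ := zeta_two hP hC' hV hne hq0 hF _ (P a) (P b) a b (hPp a) (hPp b) hm'
    rw [← h2, ← h4]
    exact hz3 _ _ (key _ _ (hR.prod (hR.prod (hR.prod (hR.equivalence.refl X) hXY)
      (hR.equivalence.refl (P a))) (hR.equivalence.refl (P b))) (by
        simp only [dim_prod, (hPp _).1, he]
        omega) _ _ h1 h3)
  · obtain ⟨m1, h1, h2⟩ := zeta_two hP hC' hV hne hq0 hF _ (P a) (P b) a b (hPp a) (hPp b) hm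
    obtain ⟨m2, h3, h4⟩ := zeta_two hP hC' hV hne hq0 hF _ (P a) (P b) a b (hPp a) (hPp b) hm'
    rw [← h2, ← h4]
    exact hz3 _ _ (key _ _ (hR.prod (hR.prod (hR.prod hXY (hR.equivalence.refl Y))
      (hR.equivalence.refl (P a))) (hR.equivalence.refl (P b))) (by
        simp only [dim_prod, (hPp _).1, he, he']
        omega) _ _ h1 h3)

/-- Invariant linear combinations. -/
theorem sameZeta_of_inv {D d : ℕ} {c : ℕ → ℝ} (hc : IsDeep c d D) (hnz : IsNontrivial c D)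
    (h : IsInvariant R (poleOrder C K q F) c D)
    {X Y : 𝒱.Obj} (hXY : R X Y) (hX : X.dim ≤ d) : SameZeta C F X Y := by
  refine sameZeta_of_real hR hz hP hU hV hC' hne hq hF hf hPs hc hnz
    (fun Z W hZW hZ m m' hm hm' => ?_) hXY hX
  have := h Z W hZW hZ
  unfold comb at this
  simpa only [poleOrder_ph hU hm, poleOrder_ph hU hm'] using this

/-- Almost invariant linear combinations. -/
theorem sameZeta_of_almost' (hS : ∀ r : ℕ, ∃ s, r ≤ s ∧ ∃ S : 𝒱.Obj, IsSplitSurface C S s)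
    {D d : ℕ} {c : ℕ → ℝ} (hc : IsDeep c d D) (hnz : IsNontrivial c D)
    (h : IsAlmostInvariant R (poleOrder C K q F) c D)
    {X Y : 𝒱.Obj} (hXY : R X Y) (hX : X.dim < d) : SameZeta C F X Y := by
  have hq0 : q ≠ 0 := by omega
  obtain ⟨i₀, hi₀, hne'⟩ := hnz
  obtain ⟨hi1, hi2⟩ := deep_le hc hi₀ hne'
  obtain ⟨d, rfl⟩ : ∃ d', d = d' + 1 := ⟨d - 1, by omega⟩
  obtain ⟨D, rfl⟩ : ∃ D', D = D' + 2 := ⟨D - 2, by omega⟩
  have c0 : c 0 = 0 := by
    by_contra h0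
    have := hc 0 h0
    omega
  have c1 : c (D + 2) = 0 := by
    by_contra h0
    have := hc _ h0
    omega
  refine sameZeta_of_real hR hz hP hU hV hC' hne hq hF hf hPs (D := D) (d := d)
    (c := fun i => c (i + 1)) (fun i hi => ?_) ⟨i₀ - 1, by omega, ?_⟩
    (fun Z W hZW hZ m m' hm hm' => ?_) hXY (Nat.lt_succ_iff.1 hX)
  · have := hc _ hi
    omega
  · beta_reduce
    rw [show i₀ - 1 + 1 = i₀ by omega, show D - (i₀ - 1) + 1 = D + 2 - i₀ by omega]
    exact hne'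
  · refine lead_comb c0 c1 (ph q m) (ph q m')
      (fun s => ∃ S : 𝒱.Obj, IsSplitSurface C S s) hS (fun ε hε => ?_)
    obtain ⟨B, hB⟩ := h ε hε
    refine ⟨B, fun r hr => ?_⟩
    obtain ⟨S, hS⟩ := hr
    have h3 := hB _ _ (hR.prod hZW (hR.equivalence.refl S)) (by
      rw [dim_prod, hZ, hS.1])
    obtain ⟨m1, h4, h5⟩ := zeta_split hP hC' hV hne hq0 hF Z S r hS hm
    obtain ⟨m2, h6, h7⟩ := zeta_split hP hC' hV hne hq0 hF W S r hS hm'
    unfold comb at h3
    simp only [poleOrder_ph hU h4, poleOrder_ph hU h6, h5, h7] at h3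
    exact h3

end rel

end Pool.Agent.P8H64.ZO
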