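import Pool.Agent.P8H64.ZO.Law
import Pool.Agent.P8H64.ZO.Final
import Pool.Agent.P8H64.AN.Zalg

/-!
# All or nothing for the orders of poles: assembly
-/

set_option autoImplicit false

open CategoryTheory AlgebraicGeometry

universe u v w

namespace Pool.Agent.P8H64.ZO

open Pool.Agent.H914 Pool.Agent.H914.VarClass Pool.Agent.H914.VarClass.Obj Pool.Agent.W492.BB
  Pool.Agent.TH133 Pool.Agent.P8H64.OO Pool.Agent.W550.Corr Pool.Agent.P8H64.AC
  Pool.Agent.TH829.Kim Pool.Agent.P8H64.AN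

variable {k : Type u} [Field k] {𝒱 : VarClass k} {C : TheoryData.{u, v, 0} 𝒱 ℚ}
  [hC : IsChowProj C] {K : Type w} [Field K] [CharZero K] [IsAlgClosed K]

theorem poleLaw (H : WeilTheoryData.{u, v, w} C K) [hH : IsWeilComm H] {q : ℕ} (hq : 1 < q)
    {F : ∀ X : 𝒱.Obj, X ⟶ X} (hF : IsFrobenius C q F) :
    (∀ X : 𝒱.Obj, ∃! m : K →₀ ℤ, IsZeta C F X m) ∧
    (∀ X Y : 𝒱.Obj, X.dim = Y.dim →
      2 * poleOrder C K q F (X.prod Y) X.dim ≤
        poleOrder C K q F (X.prod X) X.dim + poleOrder C K q F (Y.prod Y) Y.dim ∧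
      (2 * poleOrder C K q F (X.prod Y) X.dim =
        poleOrder C K q F (X.prod X) X.dim + poleOrder C K q F (Y.prod Y) Y.dim ↔
        SameZeta C F X Y) ∧
      (poleOrder C K q F (X.prod X) X.dim = rk C (X.prod X) X.dim →
        poleOrder C K q F (X.prod Y) X.dim = rk C (X.prod Y) X.dim →
        poleOrder C K q F (Y.prod Y) Y.dim = rk C (Y.prod Y) Y.dim →
        (NumIsom C X Y ↔ SameZeta C F X Y) ∧
        (IsKimuraFinite C (ratFam C) X → IsKimuraFinite C (ratFam C) Y →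
          (ChowIso C X Y ↔ SameZeta C F X Y)))) ∧
    ∀ R : 𝒱.Obj → 𝒱.Obj → Prop, IsStable R →
      List.TFAE [∀ X Y : 𝒱.Obj, R X Y → SameZeta C F X Y,
        ∀ X Y : 𝒱.Obj, R X Y → ∀ i : ℕ, poleOrder C K q F X i = poleOrder C K q F Y i,
        ∀ X Y : 𝒱.Obj, R X Y → ∀ m : ℕ, X.dim = 2 * m →
          poleOrder C K q F X m = poleOrder C K q F Y m,
        ∀ X Y : 𝒱.Obj, R X Y →
          poleOrder C K q F (X.prod X) X.dim ≤ poleOrder C K q F (X.prod Y) X.dim] ∧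
      ((∀ N : ℕ, ∃ P : 𝒱.Obj, IsProjectiveSpace C P N) →
        (∀ (D d : ℕ) (c : ℕ → ℝ), IsDeep c d D → IsNontrivial c D →
          IsInvariant R (poleOrder C K q F) c D →
          ∀ X Y : 𝒱.Obj, R X Y → X.dim ≤ d → SameZeta C F X Y) ∧
        ((∀ r : ℕ, ∃ s, r ≤ s ∧ ∃ S : 𝒱.Obj, IsSplitSurface C S s) →
          (∀ (D d : ℕ) (c : ℕ → ℝ), IsDeep c d D → IsNontrivial c D →
            IsAlmostInvariant R (poleOrder C K q F) c D →
            ∀ X Y : 𝒱.Obj, R X Y → X.dim < d → SameZeta C F X Y) ∧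
          ((∀ X Y : 𝒱.Obj, R X Y → SameZeta C F X Y) ↔
            ∀ d : ℕ, ∃ (D : ℕ) (c : ℕ → ℝ), IsDeep c d D ∧ IsNontrivial c D ∧
              IsAlmostInvariant R (poleOrder C K q F) c D))) := by
  obtain ⟨h1, h2, h3⟩ := everyPole H hq hF
  have hq0 : q ≠ 0 := by omega
  have hne := (nz H).ne
  obtain ⟨hd, hf⟩ := exists_facts tr_ lin_ uniq_ H hq0 hF
  refine ⟨h1, h2, fun R hR => ⟨(h3 R hR).1, fun hPs => ⟨fun D d c hc hnz h X Y hXY hX =>
    sameZeta_of_inv hR zalg pts_ uniq_ conv_ ptc hne hq hF hf hPs hc hnz h hXY hX,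
    fun hS => ?_⟩⟩⟩
  have halm : ∀ (D d : ℕ) (c : ℕ → ℝ), IsDeep c d D → IsNontrivial c D →
      IsAlmostInvariant R (poleOrder C K q F) c D →
      ∀ X Y : 𝒱.Obj, R X Y → X.dim < d → SameZeta C F X Y := fun D d c hc hnz h X Y hXY hX =>
    sameZeta_of_almost' hR zalg pts_ uniq_ conv_ ptc hne hq hF hf hPs hS hc hnz h hXY hX
  refine ⟨halm, fun h d => ⟨2 * d, fun i => if i = d then 1 else 0, fun i hi => ?_,
    ⟨d, by omega, ?_⟩, fun ε hε => ⟨0, fun Z W hZW hZ => ?_⟩⟩, fun h X Y hXY => ?_⟩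
  · have : i = d := by
      by_contra h
      exact hi (if_neg h)
    omega
  · rw [show 2 * d - d = d by omega]
    beta_reduce
    rw [if_pos rfl]
    norm_num
  · have h3 : comb (poleOrder C K q F) (fun i => if i = d then 1 else 0) (2 * d) Z =
        comb (poleOrder C K q F) (fun i => if i = d then 1 else 0) (2 * d) W := by
      unfold comb
      simp only [(h Z W hZW).poleOrder_eq]
    rw [h3, sub_self, abs_zero, add_zero]
    exact mul_nonneg hε.le (Finset.sum_nonneg fun i _ => abs_nonneg _)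
  · obtain ⟨D, c, hc, hnz, h1⟩ := h (X.dim + 1)
    exact halm D _ c hc hnz h1 X Y hXY (Nat.lt_succ_self _)

end Pool.Agent.P8H64.ZO
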