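import Pool.Agent.P8H64.ZO.Stm

/-!
# One pole decides: assembly
-/

set_option autoImplicit false

open CategoryTheory AlgebraicGeometry

universe u v w

namespace Pool.Agent.P8H64.ZO

open Pool.Agent.H914 Pool.Agent.H914.VarClass Pool.Agent.H914.VarClass.Obj Pool.Agent.W492.BB
  Pool.Agent.TH133 Pool.Agent.P8H64.OO Pool.Agent.W550.Corr

section form

variable {K : Type w} [Field K]

/-- The standard form on the integral functions with finite support. -/
noncomputable def dot (m m' : K →₀ ℤ) : ℤ := m.sum fun α a => a * m' α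

lemma dot_eq (m m' : K →₀ ℤ) (S : Finset K) (h : m.support ⊆ S) :
    dot m m' = ∑ α ∈ S, m α * m' α := by
  unfold dot
  rw [Finsupp.sum]
  refine Finset.sum_subset h fun x _ hx => ?_
  rw [Finsupp.notMem_support_iff.1 hx, zero_mul]

lemma dot_comm (m m' : K →₀ ℤ) : dot m m' = dot m' m := by
  classical
  rw [dot_eq m m' (m.support ∪ m'.support) Finset.subset_union_left,
    dot_eq m' m (m.support ∪ m'.support) Finset.subset_union_right]
  exact Finset.sum_congr rfl fun x _ => mul_comm _ _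

lemma dot_le (m m' : K →₀ ℤ) : 2 * dot m m' ≤ dot m m + dot m' m' ∧
    (2 * dot m m' = dot m m + dot m' m' ↔ m = m') := by
  classical
  set S := m.support ∪ m'.support with hS
  have h1 : dot m m' = ∑ α ∈ S, m α * m' α := dot_eq m m' S Finset.subset_union_left
  have h2 : dot m m = ∑ α ∈ S, m α * m α := dot_eq m m S Finset.subset_union_left
  have h3 : dot m' m' = ∑ α ∈ S, m' α * m' α := dot_eq m' m' S Finset.subset_union_right
  have h4 : dot m m + dot m' m' - 2 * dot m m' = ∑ α ∈ S, (m α - m' α) ^ 2 := by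
    rw [h1, h2, h3, Finset.mul_sum, ← Finset.sum_add_distrib, ← Finset.sum_sub_distrib]
    exact Finset.sum_congr rfl fun x _ => by ring
  have h5 : 0 ≤ ∑ α ∈ S, (m α - m' α) ^ 2 := Finset.sum_nonneg fun x _ => sq_nonneg _
  refine ⟨by linarith, fun h => ?_, fun h => ?_⟩
  · have h6 : ∑ α ∈ S, (m α - m' α) ^ 2 = 0 := by linarith
    ext x
    by_cases hx : x ∈ S
    · have := (Finset.sum_eq_zero_iff_of_nonneg fun x _ => sq_nonneg _).1 h6 x hx
      exact sub_eq_zero.1 (pow_eq_zero_iff two_ne_zero |>.1 this)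
    · rw [hS, Finset.mem_union, not_or] at hx
      rw [Finsupp.notMem_support_iff.1 hx.1, Finsupp.notMem_support_iff.1 hx.2]
  · subst h
    ring

end form

variable {k : Type u} [Field k] {𝒱 : VarClass k} {C : TheoryData.{u, v, 0} 𝒱 ℚ}

lemma prodMap_id (X Y : 𝒱.Obj) : prodMap (𝟙 X) (𝟙 Y) = 𝟙 (X.prod Y) := by
  apply prod_ext <;> simp

lemma iter_prodMap {X Y : 𝒱.Obj} (f : X ⟶ X) (g : Y ⟶ Y) (n : ℕ) :
    iter (prodMap f g) n = prodMap (iter f n) (iter g n) := by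
  induction n with
  | zero => exact (prodMap_id X Y).symm
  | succ n ih => rw [iter, ih, prodMap_comp]; rfl

variable [hC : IsChowProj C] {K : Type w} [Field K] [CharZero K] {q : ℕ} {F : ∀ X : 𝒱.Obj, X ⟶ X}

lemma IsFrobenius.degree (hF : IsFrobenius C q F) (X : 𝒱.Obj) :
    C.down (F X) 1 = (q : ℚ) ^ X.dim • (1 : C.A X) :=
  hF.down X 0 X.dim (zero_add _) 1 (by simpa using C.one_mem X)

lemma pts_prod (hP : S_PTS.{u, v}) (hne : ∀ X : 𝒱.Obj, (1 : C.A X) ≠ 0)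
    (hF : IsFrobenius C q F) (X Y : 𝒱.Obj) (n : ℕ) :
    pts C (iter (F (X.prod Y)) n) = pts C (iter (F X) n) * pts C (iter (F Y) n) := by
  rw [hF.prod, iter_prodMap, (hP k 𝒱 C hne).2]

lemma isZeta_unique (hU : S_UNIQ.{w}) {X : 𝒱.Obj} {m m' : K →₀ ℤ} (h : IsZeta C F X m)
    (h' : IsZeta C F X m') : m = m' :=
  hU K m m' h.1 h'.1 fun n hn => by rw [← h.2 n hn, ← h'.2 n hn]

lemma poleOrder_eq (hU : S_UNIQ.{w}) {X : 𝒱.Obj} {m : K →₀ ℤ} (h : IsZeta C F X m) (i : ℕ) :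
    poleOrder C K q F X i = m ((q : K) ^ i) := by
  have h' : IsZeta C F X (Classical.epsilon fun m : K →₀ ℤ => IsZeta C F X m) :=
    Classical.epsilon_spec (p := fun m : K →₀ ℤ => IsZeta C F X m) ⟨m, h⟩
  rw [poleOrder, isZeta_unique hU h' h]

lemma sameZeta_iff (hU : S_UNIQ.{w}) {X Y : 𝒱.Obj} {m m' : K →₀ ℤ} (h : IsZeta C F X m)
    (h' : IsZeta C F Y m') : SameZeta C F X Y ↔ m = m' := by
  constructor
  · intro hs
    refine hU K m m' h.1 h'.1 fun n hn => ?_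
    rw [← h.2 n hn, ← h'.2 n hn, hs n hn]
  · rintro rfl n hn
    have := (h.2 n hn).trans (h'.2 n hn).symm
    exact_mod_cast this

lemma exists_zeta [IsAlgClosed K] (hT : S_TR.{u, v, w}) (hL : S_LIN.{v, w}) (hU : S_UNIQ.{w})
    (H : WeilTheoryData.{u, v, w} C K) [hH : IsWeilComm H] (hq : q ≠ 0)
    (hF : IsFrobenius C q F) (X : 𝒱.Obj) :
    ∃ m : K →₀ ℤ, IsZeta C F X m ∧ ∀ α : K, m ((q : K) ^ X.dim / α) = m α := by
  have hc : (q : ℚ) ^ X.dim ≠ 0 := pow_ne_zero _ (Nat.cast_ne_zero.2 hq)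
  obtain ⟨hfin, P, T, T', hPP, hPT, -, h1, h2, h3⟩ :=
    hT k 𝒱 C K H X (F X) _ hc (hF.degree X)
  have hc' : (((q : ℚ) ^ X.dim : ℚ) : K) = (q : K) ^ X.dim := by push_cast; rfl
  rw [hc'] at h1 h2
  have hcK : (q : K) ^ X.dim ≠ 0 := pow_ne_zero _ (Nat.cast_ne_zero.2 hq)
  obtain ⟨m, hm0, hm, hm'⟩ := hL K (H.A X) P T T' _ hcK hPP hPT h1 h2
  have hz : IsZeta C F X m := ⟨hm0, fun n _ => by rw [← (h3 n).1, hm n]⟩
  refine ⟨m, hz, fun α => ?_⟩
  set c := (q : K) ^ X.dim with hcdef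
  have hinv : ∀ x : K, c / (c / x) = x := by
    intro x
    by_cases hx : x = 0
    · simp [hx]
    · field_simp
  have hinj : Function.Injective fun x : K => c / x := fun x y hxy => by
    have := congrArg (fun z => c / z) hxy
    simpa only [hinv] using this
  have happ : ∀ x : K, (m.mapDomain fun x : K => c / x) x = m (c / x) := by
    intro x
    have := Finsupp.mapDomain_apply hinj m (c / x)
    rwa [hinv] at this
  have hz' : IsZeta C F X (m.mapDomain fun x : K => c / x) := by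
    refine ⟨by rw [happ, div_zero, hm0], fun n _ => ?_⟩
    rw [← (h3 n).2, hm' n, Finsupp.sum_mapDomain_index]
    · simp
    · intro a b b'
      push_cast
      ring
  rw [← happ, isZeta_unique hU hz' hz]

variable (K)

/-- The facts from the packages. -/
structure Facts (hd : 𝒱.Obj → (K →₀ ℤ)) (C : TheoryData.{u, v, 0} 𝒱 ℚ) (q : ℕ)
    (F : ∀ X : 𝒱.Obj, X ⟶ X) : Prop where
  zeta : ∀ X, IsZeta C F X (hd X)
  symm : ∀ (X : 𝒱.Obj) (α : K), hd X ((q : K) ^ X.dim / α) = hd X α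

variable {K}

lemma exists_facts [IsAlgClosed K] (hT : S_TR.{u, v, w}) (hL : S_LIN.{v, w}) (hU : S_UNIQ.{w})
    (H : WeilTheoryData.{u, v, w} C K) [hH : IsWeilComm H] (hq : q ≠ 0)
    (hF : IsFrobenius C q F) : ∃ hd : 𝒱.Obj → (K →₀ ℤ), Facts K hd C q F := by
  choose hd h using exists_zeta hT hL hU H hq hF
  exact ⟨hd, fun X => (h X).1, fun X => (h X).2⟩

variable {hd : 𝒱.Obj → (K →₀ ℤ)}

lemma pole_prod (hP : S_PTS.{u, v}) (hU : S_UNIQ.{w}) (hV : S_CONV.{w})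
    (hne : ∀ X : 𝒱.Obj, (1 : C.A X) ≠ 0) (hq : q ≠ 0)
    (hF : IsFrobenius C q F) (hf : Facts K hd C q F) {X Y : 𝒱.Obj} (h : X.dim = Y.dim) :
    poleOrder C K q F (X.prod Y) X.dim = dot (hd X) (hd Y) := by
  obtain ⟨m, hm0, hm, hmc⟩ := hV K (hd X) (hd Y) (hf.zeta X).1 (hf.zeta Y).1
  have hz : IsZeta C F (X.prod Y) m := by
    refine ⟨hm0, fun n hn => ?_⟩
    rw [pts_prod hP hne hF, hm, ← (hf.zeta X).2 n hn, ← (hf.zeta Y).2 n hn]
    push_cast
    rfl
  rw [poleOrder_eq hU hz, hmc _ (pow_ne_zero _ (Nat.cast_ne_zero.2 hq)), dot]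
  refine Finsupp.sum_congr fun α _ => ?_
  rw [h, hf.symm Y]

lemma pole_le (hP : S_PTS.{u, v}) (hU : S_UNIQ.{w}) (hV : S_CONV.{w})
    (hne : ∀ X : 𝒱.Obj, (1 : C.A X) ≠ 0) (hq : q ≠ 0)
    (hF : IsFrobenius C q F) (hf : Facts K hd C q F) {X Y : 𝒱.Obj} (h : X.dim = Y.dim) :
    2 * poleOrder C K q F (X.prod Y) X.dim ≤
      poleOrder C K q F (X.prod X) X.dim + poleOrder C K q F (Y.prod Y) Y.dim ∧
    (2 * poleOrder C K q F (X.prod Y) X.dim =
      poleOrder C K q F (X.prod X) X.dim + poleOrder C K q F (Y.prod Y) Y.dim ↔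
      SameZeta C F X Y) := by
  rw [pole_prod hP hU hV hne hq hF hf h, pole_prod hP hU hV hne hq hF hf (X := X) (Y := X) rfl,
    pole_prod hP hU hV hne hq hF hf (X := Y) (Y := Y) rfl,
    sameZeta_iff hU (hf.zeta X) (hf.zeta Y)]
  exact dot_le _ _

lemma pole_comm (hP : S_PTS.{u, v}) (hU : S_UNIQ.{w}) (hV : S_CONV.{w})
    (hne : ∀ X : 𝒱.Obj, (1 : C.A X) ≠ 0) (hq : q ≠ 0)
    (hF : IsFrobenius C q F) (hf : Facts K hd C q F) {X Y : 𝒱.Obj} (h : X.dim = Y.dim) :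
    poleOrder C K q F (X.prod Y) X.dim = poleOrder C K q F (Y.prod X) Y.dim := by
  rw [pole_prod hP hU hV hne hq hF hf h, pole_prod hP hU hV hne hq hF hf h.symm, dot_comm]

lemma SameZeta.poleOrder_eq {X Y : 𝒱.Obj} (h : SameZeta C F X Y) (i : ℕ) :
    poleOrder C K q F X i = poleOrder C K q F Y i := by
  have : (fun m : K →₀ ℤ => IsZeta C F X m) = fun m => IsZeta C F Y m := by
    funext m
    apply propext
    constructor
    · exact fun hm => ⟨hm.1, fun n hn => by rw [← h n hn]; exact hm.2 n hn⟩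
    · exact fun hm => ⟨hm.1, fun n hn => by rw [h n hn]; exact hm.2 n hn⟩
  rw [poleOrder, poleOrder, this]

variable {R : 𝒱.Obj → 𝒱.Obj → Prop}

/-- The case of the fixed dimension `d`. -/
lemma sameZeta_of_mid (hR : IsStable R) (hP : S_PTS.{u, v}) (hU : S_UNIQ.{w}) (hV : S_CONV.{w})
    (hne : ∀ X : 𝒱.Obj, (1 : C.A X) ≠ 0) (hq : q ≠ 0)
    (hF : IsFrobenius C q F) (hf : Facts K hd C q F) (d : ℕ)
    (hmid : ∀ Z W : 𝒱.Obj, R Z W → Z.dim = 2 * d →
      poleOrder C K q F Z d = poleOrder C K q F W d)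
    {X Y : 𝒱.Obj} (h : R X Y) (hX : X.dim = d) : SameZeta C F X Y := by
  have hY : Y.dim = d := by rw [← hR.dim_eq h, hX]
  have h1 : poleOrder C K q F (X.prod X) d = poleOrder C K q F (X.prod Y) d :=
    hmid _ _ (hR.prod (hR.equivalence.refl X) h) (by rw [dim_prod, hX]; ring)
  have h2 : poleOrder C K q F (X.prod Y) d = poleOrder C K q F (Y.prod Y) d :=
    hmid _ _ (hR.prod h (hR.equivalence.refl Y)) (by rw [dim_prod, hX, hY]; ring)
  refine (pole_le hP hU hV hne hq hF hf (hR.dim_eq h)).2.1 ?_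
  rw [hX, hY, ← h2, h1]
  ring

/-- The products of `j + 1` copies. -/
noncomputable def pow (X : 𝒱.Obj) : ℕ → 𝒱.Obj
  | 0 => X
  | j + 1 => X.prod (pow X j)

lemma dim_pow (X : 𝒱.Obj) (j : ℕ) : (pow X j).dim = (j + 1) * X.dim := by
  induction j with
  | zero => simp [pow]
  | succ j ih => rw [pow, dim_prod, ih]; ring

lemma rel_pow (hR : IsStable R) {X Y : 𝒱.Obj} (h : R X Y) (j : ℕ) : R (pow X j) (pow Y j) := by
  induction j with
  | zero => exact h
  | succ j ih => exact hR.prod h ih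

lemma pts_pow (hP : S_PTS.{u, v}) (hne : ∀ X : 𝒱.Obj, (1 : C.A X) ≠ 0)
    (hF : IsFrobenius C q F) (X : 𝒱.Obj) (n j : ℕ) :
    pts C (iter (F (pow X j)) n) = pts C (iter (F X) n) ^ (j + 1) := by
  induction j with
  | zero => simp [pow]
  | succ j ih => rw [pow, pts_prod hP hne hF, ih]; ring

lemma sameZeta_of_mid_pow (hR : IsStable R) (hP : S_PTS.{u, v}) (hU : S_UNIQ.{w})
    (hV : S_CONV.{w}) (hne : ∀ X : 𝒱.Obj, (1 : C.A X) ≠ 0) (hq : q ≠ 0)
    (hF : IsFrobenius C q F) (hf : Facts K hd C q F) (d j : ℕ) (hj : 1 ≤ j)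
    (hmid : ∀ Z W : 𝒱.Obj, R Z W → Z.dim = 2 * (j * d) →
      poleOrder C K q F Z (j * d) = poleOrder C K q F W (j * d))
    {X Y : 𝒱.Obj} (h : R X Y) (hX : X.dim = d) : SameZeta C F X Y := by
  have hY : Y.dim = d := by rw [← hR.dim_eq h, hX]
  have key : ∀ Z W : 𝒱.Obj, R Z W → Z.dim = j * d → SameZeta C F Z W := fun Z W hZW hZ =>
    sameZeta_of_mid hR hP hU hV hne hq hF hf (j * d) hmid hZW hZ
  obtain ⟨j, rfl⟩ := Nat.exists_eq_add_of_le' hj
  rcases Nat.eq_zero_or_pos j with rfl | hj0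
  · exact key X Y h (by rw [hX]; ring)
  obtain ⟨i, rfl⟩ := Nat.exists_eq_add_of_le' hj0
  have h1 := key _ _ (hR.prod h (hR.equivalence.refl (pow X i)))
    (by rw [dim_prod, dim_pow, hX]; ring)
  have h2 := key _ _ (hR.prod h (hR.equivalence.refl (pow Y i)))
    (by rw [dim_prod, dim_pow, hX, hY]; ring)
  intro n hn
  have h1n := h1 n hn
  have h2n := h2 n hn
  rw [pts_prod hP hne hF, pts_prod hP hne hF, pts_pow hP hne hF] at h1n h2n
  by_cases hx : pts C (iter (F X) n) = 0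
  · rw [hx, zero_mul] at h2n
    rcases mul_eq_zero.1 h2n.symm with h3 | h3
    · rw [hx, h3]
    · rw [hx, pow_eq_zero_iff (Nat.succ_ne_zero i) |>.1 h3]
  · exact mul_right_cancel₀ (pow_ne_zero _ hx) h1n

end Pool.Agent.P8H64.ZO
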