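import Pool.Agent.P8H64.ZO.Any
import Pool.Agent.P8H64.ZO.Asm

/-!
# Every single pole decides: the theorem from the packages
-/

set_option autoImplicit false

open CategoryTheory AlgebraicGeometry

universe u v w

namespace Pool.Agent.P8H64.ZO

open Pool.Agent.H914 Pool.Agent.H914.VarClass Pool.Agent.H914.VarClass.Obj Pool.Agent.W492.BB
  Pool.Agent.TH133 Pool.Agent.P8H64.OO Pool.Agent.W550.Corr Pool.Agent.P8H64.AC
  Pool.Agent.TH829.Kim

variable {k : Type u} [Field k] {𝒱 : VarClass k} {C : TheoryData.{u, v, 0} 𝒱 ℚ}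
  [hC : IsChowProj C] {K : Type w} [Field K] [CharZero K] {q : ℕ} {F : ∀ X : 𝒱.Obj, X ⟶ X}
  {hd : 𝒱.Obj → (K →₀ ℤ)}

lemma sum_split_int (r : ℕ) (g : ℕ → ℤ) :
    ∑ s : Fin (r + 2), g (if (s : ℕ) < r then 1 else 2 * ((s : ℕ) - r)) =
      g 0 + g 2 + r * g 1 := by
  rw [Fin.sum_univ_castSucc, Fin.sum_univ_castSucc]
  have h1 : ∀ s : Fin r, g (if ((s.castSucc.castSucc : Fin (r + 2)) : ℕ) < r then 1 else
      2 * (((s.castSucc.castSucc : Fin (r + 2)) : ℕ) - r)) = g 1 := by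
    intro s
    rw [if_pos]
    simp
  rw [Finset.sum_congr rfl fun s _ => h1 s]
  simp
  ring

lemma zeta_split (hP : S_PTS.{u, v}) (hC' : S_PTC.{u, v}) (hV : S_CONV.{w})
    (hne : ∀ X : 𝒱.Obj, (1 : C.A X) ≠ 0) (hq : q ≠ 0)
    (hF : IsFrobenius C q F) (Z S : 𝒱.Obj) (r : ℕ) (hS : IsSplitSurface C S r)
    {m : K →₀ ℤ} (hm : IsZeta C F Z m) :
    ∃ m' : K →₀ ℤ, IsZeta C F (Z.prod S) m' ∧
      ∀ j : ℤ, ph q m' j = (ph q m j + ph q m (j - 2)) + r * ph q m (j - 1) := by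
  obtain ⟨m', h1, h2⟩ := zeta_prod_cell hP hC' hV hne hq hF Z S (r + 2) _ hS.2 hm
  refine ⟨m', h1, fun j => ?_⟩
  rw [h2 j, hS.1, sum_split_int r fun n => ph q m (j - ((2 - n : ℕ) : ℤ))]
  simp only [Nat.sub_zero, Nat.cast_ofNat, Nat.sub_self, Nat.cast_zero, sub_zero]
  norm_num
  ring

section rel

variable {R : 𝒱.Obj → 𝒱.Obj → Prop} (hR : IsStable R) (hP : S_PTS.{u, v}) (hU : S_UNIQ.{w})
  (hV : S_CONV.{w}) (hC' : S_PTC.{u, v}) (hne : ∀ X : 𝒱.Obj, (1 : C.A X) ≠ 0) (hq : 1 < q)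
  (hF : IsFrobenius C q F) (hf : Facts K hd C q F)
  (hPs : ∀ N : ℕ, ∃ P : 𝒱.Obj, IsProjectiveSpace C P N)

include hR hP hU hV hC' hne hq hF hf hPs

theorem sameZeta_of_key {d n l : ℕ}
    (key : ∀ Z W : 𝒱.Obj, R Z W → Z.dim = 2 * d + n + l → ∀ m m' : K →₀ ℤ, IsZeta C F Z m →
      IsZeta C F W m' → ph q m (d + n) = ph q m' (d + n))
    {X Y : 𝒱.Obj} (hXY : R X Y) (hX : X.dim = d) : SameZeta C F X Y := by
  have hq0 : q ≠ 0 := by omega
  have hY : Y.dim = d := by rw [← hR.dim_eq hXY, hX]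
  choose P hPp using hPs
  refine sameZeta_of_sums hP hU hV hne hq hF hf hX hY n l (fun m m' hm hm' a b hab => ?_)
    fun m m' hm hm' a b hab => ?_
  · obtain ⟨m1, h1, h2⟩ := zeta_two hP hC' hV hne hq0 hF _ (P a) (P b) a b (hPp a) (hPp b) hm
    obtain ⟨m2, h3, h4⟩ := zeta_two hP hC' hV hne hq0 hF _ (P a) (P b) a b (hPp a) (hPp b) hm'
    rw [← h2, ← h4]
    exact key _ _ (hR.prod (hR.prod (hR.prod (hR.equivalence.refl X) hXY)
      (hR.equivalence.refl (P a))) (hR.equivalence.refl (P b))) (by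
        simp only [dim_prod, (hPp _).1, hX]
        omega) _ _ h1 h3
  · obtain ⟨m1, h1, h2⟩ := zeta_two hP hC' hV hne hq0 hF _ (P a) (P b) a b (hPp a) (hPp b) hm
    obtain ⟨m2, h3, h4⟩ := zeta_two hP hC' hV hne hq0 hF _ (P a) (P b) a b (hPp a) (hPp b) hm'
    rw [← h2, ← h4]
    exact key _ _ (hR.prod (hR.prod (hR.prod hXY (hR.equivalence.refl Y))
      (hR.equivalence.refl (P a))) (hR.equivalence.refl (P b))) (by
        simp only [dim_prod, (hPp _).1, hX, hY]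
        omega) _ _ h1 h3

theorem sameZeta_of_pole (D i : ℕ)
    (h : ∀ Z W : 𝒱.Obj, R Z W → Z.dim = D → poleOrder C K q F Z i = poleOrder C K q F W i)
    {X Y : 𝒱.Obj} (hXY : R X Y) (h1 : X.dim ≤ i) (h2 : X.dim + i ≤ D) : SameZeta C F X Y := by
  obtain ⟨n, rfl⟩ := Nat.exists_eq_add_of_le h1
  obtain ⟨l, rfl⟩ := Nat.exists_eq_add_of_le h2
  refine sameZeta_of_key hR hP hU hV hC' hne hq hF hf hPs (d := X.dim) (n := n) (l := l)
    (fun Z W hZW hZ m m' hm hm' => ?_) hXY rfl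
  have := h Z W hZW (by rw [hZ]; ring)
  rw [poleOrder_ph hU hm, poleOrder_ph hU hm'] at this
  push_cast at this
  exact this

theorem sameZeta_of_almost (hS : ∀ r : ℕ, ∃ s, r ≤ s ∧ ∃ S : 𝒱.Obj, IsSplitSurface C S s)
    (D i : ℕ) (h : AlmostInvariant R (fun Z => poleOrder C K q F Z i) D)
    {X Y : 𝒱.Obj} (hXY : R X Y) (h1 : X.dim < i) (h2 : X.dim + i < D) : SameZeta C F X Y := by
  have hq0 : q ≠ 0 := by omega
  obtain ⟨n, rfl⟩ := Nat.exists_eq_add_of_lt h1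
  obtain ⟨l, rfl⟩ := Nat.exists_eq_add_of_lt h2
  refine sameZeta_of_key hR hP hU hV hC' hne hq hF hf hPs (d := X.dim) (n := n) (l := l)
    (fun Z W hZW hZ m m' hm hm' => ?_) hXY rfl
  refine eq_of_almost (p := ph q m ((X.dim : ℤ) + n)) (p' := ph q m' ((X.dim : ℤ) + n))
    (c := ph q m ((X.dim : ℤ) + n + 1) + ph q m ((X.dim : ℤ) + n - 1))
    (c' := ph q m' ((X.dim : ℤ) + n + 1) + ph q m' ((X.dim : ℤ) + n - 1))
    (fun s => ∃ S : 𝒱.Obj, IsSplitSurface C S s) hS (fun ε hε => ?_)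
  obtain ⟨B, hB⟩ := h ε hε
  refine ⟨B, fun r hr => ?_⟩
  obtain ⟨S, hS⟩ := hr
  have h3 := hB _ _ (hR.prod hZW (hR.equivalence.refl S)) (by
    rw [dim_prod, hZ, hS.1]
    omega)
  obtain ⟨m1, h4, h5⟩ := zeta_split hP hC' hV hne hq0 hF Z S r hS hm
  obtain ⟨m2, h6, h7⟩ := zeta_split hP hC' hV hne hq0 hF W S r hS hm'
  beta_reduce at h3
  rw [poleOrder_ph hU h4, poleOrder_ph hU h6, h5, h7] at h3
  have e1 : ((X.dim + n + 1 : ℕ) : ℤ) = (X.dim : ℤ) + n + 1 := by push_cast; ring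
  have e2 : (X.dim : ℤ) + n + 1 - 2 = (X.dim : ℤ) + n - 1 := by ring
  have e3 : (X.dim : ℤ) + n + 1 - 1 = (X.dim : ℤ) + n := by ring
  rw [e1, e2, e3] at h3
  exact h3

end rel

end Pool.Agent.P8H64.ZO
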