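import Pool.Agent.P8H64.ZO.Defs

/-!
# Project ZO: statements of the packages

Deliver `theorem x : S_X` in `Pool/Agent/P8H64/ZO/<Part>.lean` (Pts, Tr, Lin, Uniq, Conv).
-/

set_option autoImplicit false

open CategoryTheory AlgebraicGeometry

universe u v w

namespace Pool.Agent.P8H64.ZO

open Pool.Agent.H914 Pool.Agent.H914.VarClass Pool.Agent.H914.VarClass.Obj Pool.Agent.W492.BB
  Pool.Agent.TH133

/-- **PTS** (Chow calculus). Existence of the number of fixed points and its multiplicativity.

Proof. `C.graph f` is in degree `dim X` (`push_mem`), so its pull-back to the diagonal is a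
zero-cycle and has a degree (`exists_hasDegree`, `hasDegree_uniq` in `TH829/Prime`), which gives the
first claim by `Classical.epsilon_spec`. For the second: `graph (prodMap f g)` is the push-forward of
`1` under `(𝟙, prodMap f g)`, and up to the exchange of the middle factors `(X × Y) × (X × Y) =
(X × X) × (Y × Y)` it is the external product `ext (graph f) (graph g)` (external products commute
with push-forwards: `base_fst`, `base_snd`, `proj_right`; compare `tens`, `tens_comp` in
`Pool/Agent/TH133/Tens.lean`, `Ext.lean`; `tens C (graph f) (graph g)` is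
`pull t13-like (graph f) * pull t24-like (graph g)`). So the pull-back to the diagonal of `X × Y` is
`ext` of the pull-backs to the diagonals, and degrees are multiplicative for external products
(`HasDegree` of `ext x y`, see `TH133` / `TH829/Prime`: `ext`, `hasDegree_push`; or directly:
`push (snd X Y)` of `ext x y` is `q • y`). -/
def S_PTS : Prop := ∀ (k : Type u) [Field k] (𝒱 : VarClass k) (C : TheoryData.{u, v, 0} 𝒱 ℚ)
  [IsChowProj C], (∀ X : 𝒱.Obj, (1 : C.A X) ≠ 0) →
  (∀ (X : 𝒱.Obj) (f : X ⟶ X),
    HasDegree C (C.up (Obj.lift (𝟙 X) (𝟙 X)) (C.graph f)) (pts C f)) ∧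
  ∀ (X Y : 𝒱.Obj) (f : X ⟶ X) (g : Y ⟶ Y), pts C (prodMap f g) = pts C f * pts C g

/-- **TR** (Lefschetz trace formula for endomorphisms). For every `X` and every endomorphism `f` of
`X` of degree `c ≠ 0` (`f_* 1 = c`): there are operators `P`, `T`, `T'` on a finite-dimensional space
with `P P = 1`, `P T = T P`, `P T' = T' P`, `T T' = c`, `T' T = c`, and
`tr(P T^n) = tr(P T'^n) = pts (iter f n)`.

Proof. `T = H.push f`, `T' = H.pull f`, `P` = the operator `sgn H X` (`(-1)^i` on `H^i(X)`) of
`Pool/Agent/P8H64/OO/Str.lean`. `f_* f^* a = (f_* 1) a` by the projection formula (and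
`H.push f 1 = H.cl (C.push f 1) = c`), the other composition because `T` is then surjective, hence
bijective, on the finite-dimensional space `H.A X`. Degrees: `push f` and `pull f` preserve degrees,
so they commute with `P`. `iter f n` induces `T ^ n` and `T' ^ n` (functoriality). Trace formula
(`str`, second part) for `z = C.graph (iter f n)`: `H.actL (H.cl z) = H.push (iter f n)`
(`act_graph`), and for `z = C.cograph (iter f n)`, which acts as `H.pull (iter f n)`
(`act_cograph`) and whose pull-back to the diagonal is the same cycle: `cograph f` is the pull-back of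
`graph f` under the exchange of the factors. -/
def S_TR : Prop := ∀ (k : Type u) [Field k] (𝒱 : VarClass k) (C : TheoryData.{u, v, 0} 𝒱 ℚ)
  [IsChowProj C] (K : Type w) [Field K] [CharZero K] (H : WeilTheoryData.{u, v, w} C K)
  [Pool.Agent.P8H64.OO.IsWeilComm H] (X : 𝒱.Obj) (f : X ⟶ X) (c : ℚ), c ≠ 0 →
  C.down f 1 = c • (1 : C.A X) → Module.Finite K (H.A X) ∧
  ∃ P T T' : Module.End K (H.A X), P * P = 1 ∧ Commute P T ∧ Commute P T' ∧
    T * T' = algebraMap K _ (c : K) ∧ T' * T = algebraMap K _ (c : K) ∧
    ∀ n : ℕ, LinearMap.trace K (H.A X) (P * T ^ n) = (pts C (iter f n) : K) ∧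
      LinearMap.trace K (H.A X) (P * T' ^ n) = (pts C (iter f n) : K)

/-- **LIN** (linear algebra, Mathlib only; compare `Pool/Agent/N177/CL/Virt.lean`).

Proof. `V = V₊ ⊕ V₋` (eigenspaces of `P`), stable under `T`; `m(α)` is the difference of the
dimensions of the generalised eigenspaces of `T` for `α` on `V₊` and on `V₋`. `T' = c T⁻¹` has on the
generalised eigenspace of `T` for `α` the only eigenvalue `c / α`. (`T` is invertible, so `m(0) = 0`.)
Alternatively use `trace (P g(T)) = ∑ m(α) g(α)` for all polynomials `g` and `T' = c g(T)` with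
`g(x) = 1 / x` on the eigenvalues to high order. -/
def S_LIN : Prop := ∀ (K : Type w) [Field K] [CharZero K] [IsAlgClosed K] (V : Type v)
  [AddCommGroup V] [Module K V] [Module.Finite K V] (P T T' : Module.End K V) (c : K), c ≠ 0 →
  P * P = 1 → Commute P T → T * T' = algebraMap K _ c → T' * T = algebraMap K _ c →
  ∃ m : K →₀ ℤ, m 0 = 0 ∧
    (∀ n : ℕ, LinearMap.trace K V (P * T ^ n) = m.sum fun α a => (a : K) * α ^ n) ∧
    ∀ n : ℕ, LinearMap.trace K V (P * T' ^ n) = m.sum fun α a => (a : K) * (c / α) ^ n

/-- **UNIQ** (Mathlib only). Power sums with integral multiplicities determine the multiplicities.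

Proof. Vandermonde, or linear independence of characters: the functions `n ↦ α ^ n`, for distinct
`α ≠ 0`, are linearly independent (`linearIndependent_monoidHom` for the monoid of the natural
numbers, or `Pool.Agent.N177.CL.eq_zero_of_pow`). -/
def S_UNIQ : Prop := ∀ (K : Type w) [Field K] [CharZero K] (m m' : K →₀ ℤ), m 0 = 0 → m' 0 = 0 →
  (∀ n : ℕ, 1 ≤ n → (m.sum fun α a => (a : K) * α ^ n) = m'.sum fun α a => (a : K) * α ^ n) →
  m = m'

/-- **CONV** (Mathlib only). The multiplicity function of a product.

Proof. `m'' = ∑_{α, β} single (α β) (m α * m' β)`; its value at `c` is the sum of the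
`m(α) m'(β)` over the pairs with `α β = c`, that is `β = c / α`. -/
def S_CONV : Prop := ∀ (K : Type w) [Field K] (m m' : K →₀ ℤ), m 0 = 0 → m' 0 = 0 →
  ∃ m'' : K →₀ ℤ, m'' 0 = 0 ∧
    (∀ n : ℕ, (m''.sum fun α a => (a : K) * α ^ n) =
      (m.sum fun α a => (a : K) * α ^ n) * m'.sum fun α a => (a : K) * α ^ n) ∧
    ∀ c : K, c ≠ 0 → m'' c = m.sum fun α a => a * m' (c / α)

end Pool.Agent.P8H64.ZO
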